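import Pool.Agent.Work.MP_0ea01d_co.TB.MainA
import Pool.Agent.Work.MP_0ea01d_co.GapMain

/-!
# Module MainB (S). Every integer above the bound occurs.

Proof. Apply `main_a` with `ε / 2`: `m₀ ∈ S n l`, `m₀ ≤ (1 - t + 1/(l-1) + ε/2) C(n,l)`. For large `n`,
`4 * l ^ 6 * n ≤ (ε / 2) * n.choose l` (as `n.choose l ≥ n.choose 2`-like growth: e.g.
`n.choose l ≥ ((n + 1 - l) ^ l) / l!` (`Nat.pow_le_choose`) and `l ≥ 2`; or
`n.choose l / n → ∞`). So `m₀ + 4 l^6 n ≤ m` for `m` as in the statement and `gap_final` (with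
`4 l + 50 ≤ n`, `2 l ≤ n + 1`) gives `m ∈ S n l`.
-/

set_option autoImplicit false

namespace Pool.Agent.Work.MP_0ea01d_co.TB

open Finset Filter Topology

theorem main_b {l : ℕ} (hl : 3 ≤ l) {t : ℝ}
    (ht : Tendsto (fun n : ℕ => (ex l n : ℝ) / n.choose l) atTop (𝓝 t)) {ε : ℝ} (hε : 0 < ε) :
    ∀ᶠ n : ℕ in atTop, ∀ m : ℕ,
      (1 - t + 1 / ((l : ℝ) - 1) + ε) * n.choose l ≤ m → m ≤ n.choose l → m ∈ S n l := by
  have h1 := main_a hl ht (half_pos hε)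
  obtain ⟨M, hM⟩ : ∃ M : ℕ, 32 * (l : ℝ) ^ 6 * (Nat.factorial l : ℝ) / ε ≤ M := exists_nat_ge _
  filter_upwards [h1, eventually_ge_atTop (4 * l + 50), eventually_ge_atTop M] with n hn hn1 hn2
  intro m hm1 hm2
  obtain ⟨m₀, hm₀, hm₀'⟩ := hn
  refine gap_final hl (by omega) hm₀ ?_ (Or.inr ⟨hn1, hm2⟩)
  have hfac : (0 : ℝ) < (Nat.factorial l : ℝ) := by exact_mod_cast Nat.factorial_pos l
  have h2 : ((n + 1 - l : ℕ) : ℝ) ^ l ≤ (Nat.factorial l : ℝ) * (n.choose l : ℝ) := by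
    have h := Nat.pow_le_choose (α := ℝ) l n
    rw [div_le_iff₀ hfac] at h
    rw [mul_comm]
    exact h
  have h3 : (n : ℝ) / 2 ≤ ((n + 1 - l : ℕ) : ℝ) := by
    have : n ≤ 2 * (n + 1 - l) := by omega
    have h4 : (n : ℝ) ≤ 2 * ((n + 1 - l : ℕ) : ℝ) := by exact_mod_cast this
    linarith
  have hn0 : (1 : ℝ) ≤ (n : ℝ) / 2 := by
    have : (2 : ℝ) ≤ n := by
      have : 2 ≤ n := by omega
      exact_mod_cast this
    linarith
  have h4 : ((n : ℝ) / 2) ^ 2 ≤ (Nat.factorial l : ℝ) * (n.choose l : ℝ) :=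
    calc ((n : ℝ) / 2) ^ 2 ≤ ((n : ℝ) / 2) ^ l := pow_le_pow_right₀ hn0 (by omega)
      _ ≤ ((n + 1 - l : ℕ) : ℝ) ^ l := pow_le_pow_left₀ (by linarith) h3 l
      _ ≤ _ := h2
  have h5 : 32 * (l : ℝ) ^ 6 * (Nat.factorial l : ℝ) ≤ ε * n := by
    have h6 : (M : ℝ) ≤ n := by exact_mod_cast hn2
    have h7 := hM.trans h6
    rw [div_le_iff₀ hε] at h7
    linarith
  have h6 : 4 * (l : ℝ) ^ 6 * n ≤ ε / 2 * n.choose l := by
    have hnpos : (0 : ℝ) < n := by linarith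
    have h7 : (Nat.factorial l : ℝ) * (4 * (l : ℝ) ^ 6 * n) ≤
        (Nat.factorial l : ℝ) * (ε / 2 * n.choose l) := by
      have h8 := mul_le_mul_of_nonneg_right h5 hnpos.le
      have h9 := mul_le_mul_of_nonneg_left h4 hε.le
      nlinarith
    exact le_of_mul_le_mul_left h7 hfac
  have h7 : (m₀ : ℝ) + 4 * (l : ℝ) ^ 6 * n ≤ m := by
    calc (m₀ : ℝ) + 4 * (l : ℝ) ^ 6 * n
        ≤ (1 - t + 1 / ((l : ℝ) - 1) + ε / 2) * n.choose l + ε / 2 * n.choose l := by linarith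
      _ = (1 - t + 1 / ((l : ℝ) - 1) + ε) * n.choose l := by ring
      _ ≤ m := hm1
  exact_mod_cast h7

end Pool.Agent.Work.MP_0ea01d_co.TB
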