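import Pool.Agent.Work.MP_0ea01d_co.TB.LiftA

/-!
# Module FibA (S). Counting transversal sets through total label functions.

`card_agree`: the functions `x : V → A` agreeing with `x0` on `P` are
`Fintype.piFinset (fun v => if v ∈ P then {x0 v} else univ)`; the cardinality is
`∏ v, (if v ∈ P then 1 else card A) = card A ^ (number of v ∉ P)`.

`card_fib`: the right-hand side is
`∑ P (|P| = k) ∑ e ∈ A', #{x | lft P x = e} = ∑ e ∈ A' ∑ P (|P| = k) #{x | lft P x = e}`.
For `e = lft P0 x0 ∈ A'` (`|P0| = k`, from `h`) the inner sum has only the term `P = P0`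
(`lft_inj`), and `lft P0 x = lft P0 x0` iff `x` agrees with `x0` on `P0` (`lft_inj`, `lft_congr`), so
the inner sum is `card A ^ (card V - k)` by `card_agree`.
-/

set_option autoImplicit false

namespace Pool.Agent.Work.MP_0ea01d_co.TB

open Finset

variable {V A : Type} [DecidableEq V] [DecidableEq A] [Fintype V] [Fintype A]

theorem card_agree (P : Finset V) (x0 : V → A) :
    (univ.filter fun x : V → A => ∀ v ∈ P, x v = x0 v).card =
      Fintype.card A ^ (Fintype.card V - P.card) := by
  have h1 : (univ.filter fun x : V → A => ∀ v ∈ P, x v = x0 v) =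
      Fintype.piFinset (fun v => if v ∈ P then {x0 v} else (univ : Finset A)) := by
    ext x
    rw [mem_filter, Fintype.mem_piFinset]
    constructor
    · rintro ⟨-, h⟩ v
      split_ifs with hv
      · rw [mem_singleton]
        exact h v hv
      · exact mem_univ _
    · intro h
      refine ⟨mem_univ _, fun v hv => ?_⟩
      have h2 := h v
      rw [if_pos hv, mem_singleton] at h2
      exact h2
  rw [h1, Fintype.card_piFinset]
  have h2 : ∀ v : V, (if v ∈ P then ({x0 v} : Finset A) else univ).card =
      if v ∈ P then 1 else Fintype.card A := by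
    intro v
    split_ifs
    · exact card_singleton _
    · exact card_univ
  rw [prod_congr rfl (fun v _ => h2 v), prod_ite, prod_const_one, one_mul, prod_const]
  congr 1
  have h3 : (univ.filter fun v : V => v ∉ P) = Pᶜ := by
    ext v
    simp
  rw [h3, card_compl]

theorem card_fib (k : ℕ) (A' : Finset (Finset (V × A)))
    (h : ∀ e ∈ A', ∃ (P : Finset V) (x : V → A), P.card = k ∧ e = lft P x) :
    A'.card * Fintype.card A ^ (Fintype.card V - k) =
      ∑ P ∈ univ.powersetCard k, (univ.filter fun x : V → A => lft P x ∈ A').card := by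
  have h1 : ∀ P : Finset V, (univ.filter fun x : V → A => lft P x ∈ A').card =
      ∑ e ∈ A', (univ.filter fun x : V → A => lft P x = e).card := by
    intro P
    have h2 : (univ.filter fun x : V → A => lft P x ∈ A') =
        A'.biUnion (fun e => univ.filter fun x : V → A => lft P x = e) := by
      ext x
      simp
    rw [h2, card_biUnion]
    intro e _ e' _ hne
    rw [Function.onFun, disjoint_left]
    intro x hx hx'
    exact hne ((mem_filter.1 hx).2.symm.trans (mem_filter.1 hx').2)
  rw [sum_congr rfl (fun P _ => h1 P), sum_comm]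
  have h3 : ∀ e ∈ A', ∑ P ∈ univ.powersetCard k,
      (univ.filter fun x : V → A => lft P x = e).card =
        Fintype.card A ^ (Fintype.card V - k) := by
    intro e he
    obtain ⟨P0, x0, hP0, rfl⟩ := h e he
    rw [sum_eq_single P0]
    · rw [← hP0, ← card_agree P0 x0]
      congr 1
      ext x
      rw [mem_filter, mem_filter]
      constructor
      · rintro ⟨-, h4⟩
        exact ⟨mem_univ _, (lft_inj h4).2⟩
      · rintro ⟨-, h4⟩
        exact ⟨mem_univ _, lft_congr h4⟩
    · intro P _ hP
      rw [card_eq_zero, filter_eq_empty_iff]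
      intro x _ h4
      exact hP (lft_inj h4).1
    · intro h4
      exact absurd (mem_powersetCard.2 ⟨subset_univ _, hP0⟩) h4
  rw [sum_congr rfl h3, sum_const, smul_eq_mul]

end Pool.Agent.Work.MP_0ea01d_co.TB
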