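import Pool.Agent.Work.MP_0ea01d_co.TB.Defs

/-!
# Module LiftA (XS). Basic lemmas on `lft`.

`lft P x = P.image (fun v => (v, x v))`. The map `v ↦ (v, x v)` is injective (first coordinate), and
all statements are immediate by `ext` and `simp [lft]`.
-/

set_option autoImplicit false

namespace Pool.Agent.Work.MP_0ea01d_co.TB

open Finset

variable {V A : Type} [DecidableEq V] [DecidableEq A]

theorem mem_lft {P : Finset V} {x : V → A} {z : V × A} :
    z ∈ lft P x ↔ z.1 ∈ P ∧ z.2 = x z.1 := by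
  obtain ⟨a, b⟩ := z
  unfold lft
  rw [Finset.mem_image]
  constructor
  · rintro ⟨v, hv, h⟩
    rw [Prod.mk.injEq] at h
    obtain ⟨rfl, rfl⟩ := h
    exact ⟨hv, rfl⟩
  · rintro ⟨h1, h2⟩
    exact ⟨a, h1, Prod.ext rfl h2.symm⟩

theorem card_lft (P : Finset V) (x : V → A) : (lft P x).card = P.card := by
  unfold lft
  exact Finset.card_image_of_injective _ fun v w h => congrArg Prod.fst h

theorem lft_erase (P : Finset V) (x : V → A) (v : V) :
    (lft P x).erase (v, x v) = lft (P.erase v) x := by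
  ext ⟨a, b⟩
  rw [Finset.mem_erase, mem_lft, mem_lft, Finset.mem_erase]
  constructor
  · rintro ⟨h1, h2, h3⟩
    refine ⟨⟨fun h => h1 ?_, h2⟩, h3⟩
    have h4 : a = v := h
    have h5 : b = x a := h3
    rw [h5, h4]
  · rintro ⟨⟨h1, h2⟩, h3⟩
    exact ⟨fun h => h1 (congrArg Prod.fst h), h2, h3⟩

theorem lft_congr {P : Finset V} {x x' : V → A} (h : ∀ v ∈ P, x v = x' v) :
    lft P x = lft P x' := by
  unfold lft
  exact Finset.image_congr fun v hv => by
    show (v, x v) = (v, x' v)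
    rw [h v hv]

theorem lft_inj {P P' : Finset V} {x x' : V → A} (h : lft P x = lft P' x') :
    P = P' ∧ ∀ v ∈ P, x v = x' v := by
  have h1 : ∀ v, v ∈ P → v ∈ P' ∧ x v = x' v := by
    intro v hv
    have h2 : (v, x v) ∈ lft P x := mem_lft.2 ⟨hv, rfl⟩
    rw [h] at h2
    exact mem_lft.1 h2
  have h3 : ∀ v, v ∈ P' → v ∈ P := by
    intro v hv
    have h2 : (v, x' v) ∈ lft P' x' := mem_lft.2 ⟨hv, rfl⟩
    rw [← h] at h2
    exact (mem_lft.1 h2).1
  refine ⟨?_, fun v hv => (h1 v hv).2⟩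
  ext v
  exact ⟨fun hv => (h1 v hv).1, h3 v⟩

theorem lft_subset {P P' : Finset V} {x : V → A} : lft P x ⊆ lft P' x ↔ P ⊆ P' := by
  constructor
  · intro h v hv
    exact (mem_lft.1 (h (mem_lft.2 ⟨hv, rfl⟩ : (v, x v) ∈ lft P x))).1
  · intro h z hz
    rw [mem_lft] at hz ⊢
    exact ⟨h hz.1, hz.2⟩

end Pool.Agent.Work.MP_0ea01d_co.TB
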