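import Pool.Agent.Work.MP_0ea01d_co.TB.LiftA

/-!
# Module HMem (S). Membership in `HH`.

`mem_HH`: from right to left take `(ψ, x)` itself. From left to right: `lft ψ x = lft ψ' x'` gives
`ψ = ψ'` and `x v = x' v` on `ψ` (`lft_inj`), so it is enough that `InF G B α ψ x` and
`InH G B α ψ x` depend only on the restriction of `x` to `ψ`. For `InF`: `ψ = P.erase y ∉ G`, so
`y ∉ core G P` and `core G P ⊆ P.erase y = ψ`; hence `Lab G α P x ↔ Lab G α P x'` (`sum_congr`).
For `InH`: `y, y' ∉ core G P` and `(P.erase y).erase y' ⊆ ψ`, so `core G P ⊆ ψ` again.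

`HH_shape`: for `InF`, `ψ = P.erase y`, `y ∈ P`, `P.card = l + 1`; for `InH`, `ψ ∈ G`.
-/

set_option autoImplicit false

namespace Pool.Agent.Work.MP_0ea01d_co.TB

open Finset

variable {V : Type} [DecidableEq V] [Fintype V] {q : ℕ} [NeZero q] {l : ℕ}

private theorem hmem_core {G : Finset (Finset V)} {P : Finset V} {y c : V}
    (hy : P.erase y ∉ G) (hc : c ∈ core G P) : c ∈ P.erase y := by
  unfold core at hc
  rw [mem_filter] at hc
  refine mem_erase.2 ⟨?_, hc.1⟩
  rintro rfl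
  exact hy hc.2

private theorem hmem_lab {G : Finset (Finset V)} {α : Finset V → ZMod q} {P ψ : Finset V}
    {x x' : V → ZMod q} (hx : ∀ v ∈ ψ, x v = x' v) (hP : core G P ⊆ ψ) :
    Lab G α P x ↔ Lab G α P x' := by
  unfold Lab
  rw [sum_congr rfl fun c hc => hx c (hP hc)]

theorem mem_HH {G B : Finset (Finset V)} {α : Finset V → ZMod q} {ψ : Finset V}
    {x : V → ZMod q} :
    lft ψ x ∈ HH G B α ↔ InF G B α ψ x ∨ InH G B α ψ x := by
  classical
  unfold HH
  rw [mem_filter]
  constructor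
  · rintro ⟨-, ψ', x', h1, h2⟩
    obtain ⟨rfl, h3⟩ := lft_inj h1
    rcases h2 with h2 | h2
    · left
      obtain ⟨P, hP, y, hy, h4, h5, h6⟩ := h2
      refine ⟨P, hP, y, hy, h4, h5, ?_⟩
      rw [hmem_lab (ψ := ψ) h3]
      · exact h6
      · intro c hc
        rw [h4]
        exact hmem_core (by rw [← h4]; exact h5) hc
    · right
      refine ⟨h2.1, fun P hP y hy y' hy' hne h4 h5 h6 h7 => ?_⟩
      refine h2.2 P hP y hy y' hy' hne h4 h5 h6 ?_
      rw [← hmem_lab (ψ := ψ) h3]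
      · exact h7
      · intro c hc
        apply h6
        have h8 := hmem_core h4 hc
        have h9 := hmem_core h5 hc
        exact mem_erase.2 ⟨(mem_erase.1 h9).1, h8⟩
  · intro h
    exact ⟨mem_univ _, ψ, x, rfl, h⟩

theorem HH_shape {G B : Finset (Finset V)} (hG : Free l G) (hB : Tame l G B)
    (α : Finset V → ZMod q) (e : Finset (V × ZMod q)) (he : e ∈ HH G B α) :
    ∃ (P : Finset V) (x : V → ZMod q), P.card = l ∧ e = lft P x := by
  classical
  unfold HH at he
  rw [mem_filter] at he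
  obtain ⟨-, ψ, x, h1, h2⟩ := he
  refine ⟨ψ, x, ?_, h1⟩
  rcases h2 with h2 | h2
  · obtain ⟨P, hP, y, hy, h4, -, -⟩ := h2
    rw [h4, card_erase_of_mem hy, hB.card P hP]
    rfl
  · exact hG.card ψ h2.1

end Pool.Agent.Work.MP_0ea01d_co.TB
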