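import Pool.Agent.Work.MP_0ea01d_co.TB.LiftB
import Pool.Agent.Work.MP_0ea01d_co.TB.HMem

/-!
# Module Struct (M). Structure of the cliques of `HH`.

`cliq_shape`: `Q.card = l + 1` and `Q.erase z ∈ HH` for `z ∈ Q`; `HH_shape` and `exists_lft`.

`cliq_struct`. `P.card = (lft P x).card = l + 1`. For `v ∈ P`: `(v, x v) ∈ lft P x` and
`(lft P x).erase (v, x v) = lft (P.erase v) x` (`lft_erase`), so by `mem_HH`:
(*) `InF (P.erase v) x ∨ InH (P.erase v) x`, for every `v ∈ P`. If `P.erase v ∉ G` the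
first holds (the second contains `P.erase v ∈ G`); if `P.erase v ∈ G` the second holds (the first
contains `P.erase v ∉ G`).
By `hG.free` there is `y0 ∈ P` with `P.erase y0 ∉ G`; so there are `P1 ∈ B`, `y1 ∈ P1`,
`P.erase y0 = P1.erase y1`, `Lab P1 x`. If `P1 = P` we are in the first alternative. Let `P1 ≠ P`.

Case A: there is `y0' ∈ P`, `y0' ≠ y0`, `P.erase y0' ∉ G`. Then there are `P2 ∈ B`, `y2 ∈ P2`,
`P.erase y0' = P2.erase y2`, `Lab P2 x`. If `P2 = P`: first alternative. If `P1 ≠ P2`: second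
alternative. If `P1 = P2`: `P1 ⊇ P.erase y0 ∪ P.erase y0' = P` and `P1.card = P.card = l + 1`, so
`P1 = P`, a contradiction.

Case B: `P.erase y' ∈ G` for all `y' ∈ P`, `y' ≠ y0`. By `hB.two` applied to `P1` there is
`y2 ∈ P1`, `y2 ≠ y1`, `P1.erase y2 ∉ G` (one of the two given points differs from `y1`). Then
`y2 ∈ P1.erase y1 = P.erase y0`, so `y2 ∈ P`, `y2 ≠ y0` and `P.erase y2 ∈ G`; so `InH (P.erase y2) x`
holds. Apply it to `P1`, `y1`, `y2` (`P1.erase y1 = P.erase y0 ∉ G`, `P1.erase y2 ∉ G`) and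
`(P1.erase y1).erase y2 = (P.erase y0).erase y2 ⊆ P.erase y2`: it gives `¬ Lab P1 x`, a
contradiction.
-/

set_option autoImplicit false

namespace Pool.Agent.Work.MP_0ea01d_co.TB

open Finset

variable {V : Type} [DecidableEq V] [Fintype V] {q : ℕ} [NeZero q] {l : ℕ}

theorem cliq_shape (hl : 2 ≤ l) {G B : Finset (Finset V)} (hG : Free l G) (hB : Tame l G B)
    (α : Finset V → ZMod q) {Q : Finset (V × ZMod q)} (hQ : Q ∈ cliq l (HH G B α)) :
    ∃ (P : Finset V) (x : V → ZMod q), P.card = l + 1 ∧ Q = lft P x := by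
  obtain ⟨h1, h2⟩ := mem_filter.1 hQ
  refine exists_lft hl Q (mem_powersetCard.1 h1).2 fun z hz => ?_
  obtain ⟨P, x, -, hP⟩ := HH_shape hG hB α _ (h2 z hz)
  exact ⟨P, x, hP⟩

theorem cliq_struct {G B : Finset (Finset V)} (hG : Free l G) (hB : Tame l G B)
    (α : Finset V → ZMod q) {P : Finset V} {x : V → ZMod q}
    (hQ : lft P x ∈ cliq l (HH G B α)) :
    (P ∈ B ∧ Lab G α P x) ∨
      ∃ P1 ∈ B, ∃ P2 ∈ B, P1 ≠ P2 ∧ Lab G α P1 x ∧ Lab G α P2 x := by
  obtain ⟨h1, h2⟩ := mem_filter.1 hQ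
  have hc : P.card = l + 1 := by
    rw [← card_lft P x]
    exact (mem_powersetCard.1 h1).2
  have star : ∀ v ∈ P, InF G B α (P.erase v) x ∨ InH G B α (P.erase v) x := by
    intro v hv
    have h3 := h2 (v, x v) (mem_lft.2 ⟨hv, rfl⟩)
    rw [lft_erase, mem_HH] at h3
    exact h3
  have starF : ∀ v ∈ P, P.erase v ∉ G → InF G B α (P.erase v) x := by
    intro v hv hG'
    rcases star v hv with h | h
    · exact h
    · exact absurd h.1 hG'
  have starH : ∀ v ∈ P, P.erase v ∈ G → InH G B α (P.erase v) x := by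
    intro v hv hG'
    rcases star v hv with ⟨P1, -, y, -, -, h, -⟩ | h
    · exact absurd hG' h
    · exact h
  obtain ⟨y0, hy0, hy0G⟩ := hG.free P hc
  obtain ⟨P1, hP1, y1, hy1, e1, -, L1⟩ := starF y0 hy0 hy0G
  by_cases hPP : P1 = P
  · left
    rw [← hPP]
    exact ⟨hP1, L1⟩
  by_cases hA : ∃ y' ∈ P, y' ≠ y0 ∧ P.erase y' ∉ G
  · obtain ⟨y', hy', hne, hy'G⟩ := hA
    obtain ⟨P2, hP2, y2, hy2, e2, -, L2⟩ := starF y' hy' hy'G
    by_cases hP12 : P1 = P2
    · exfalso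
      apply hPP
      have hsub : P ⊆ P1 := by
        intro z hz
        by_cases hz0 : z = y0
        · have h5 : z ∈ P.erase y' := mem_erase.2 ⟨by rw [hz0]; exact hne.symm, hz⟩
          rw [e2] at h5
          rw [hP12]
          exact (mem_erase.1 h5).2
        · have h5 : z ∈ P.erase y0 := mem_erase.2 ⟨hz0, hz⟩
          rw [e1] at h5
          exact (mem_erase.1 h5).2
      exact (eq_of_subset_of_card_le hsub (by rw [hB.card P1 hP1, hc])).symm
    · right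
      exact ⟨P1, hP1, P2, hP2, hP12, L1, L2⟩
  · exfalso
    push Not at hA
    obtain ⟨u, hu, u', hu', huu, huG, hu'G⟩ := hB.two P1 hP1
    obtain ⟨y2, hy2, hy21, hy2G⟩ : ∃ y2 ∈ P1, y2 ≠ y1 ∧ P1.erase y2 ∉ G := by
      by_cases h : u = y1
      · exact ⟨u', hu', fun h' => huu (h.trans h'.symm), hu'G⟩
      · exact ⟨u, hu, h, huG⟩
    have h5 : y2 ∈ P.erase y0 := by
      rw [e1]
      exact mem_erase.2 ⟨hy21, hy2⟩
    obtain ⟨h6, h7⟩ := mem_erase.1 h5
    have hIn := starH y2 h7 (hA y2 h7 h6)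
    refine hIn.2 P1 hP1 y1 hy1 y2 hy2 hy21.symm ?_ hy2G ?_ L1
    · rw [← e1]
      exact hy0G
    · rw [← e1]
      intro z hz
      obtain ⟨h8, h9⟩ := mem_erase.1 hz
      exact mem_erase.2 ⟨h8, (mem_erase.1 h9).2⟩

end Pool.Agent.Work.MP_0ea01d_co.TB
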