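import Pool.Agent.Work.MP_0ea01d_co.TB.LowA
import Pool.Agent.Work.MP_0ea01d_co.TB.Struct
import Pool.Agent.Work.MP_0ea01d_co.TB.FibA
import Pool.Agent.Work.MP_0ea01d_co.TB.LiftA

/-!
# Module LowCount (S/M). Lower bound for the number of covered transversal edges.

Proof. Write `N = card V`, `𝒢 = Gr l (cliq l (HH G B α))`, `U = covd G B`. If `U = ∅` trivial;
otherwise `l ≤ N`. Every member of `𝒢` is of the form `lft ψ x`, `ψ.card = l`: it is an `l`-subset
of a clique `Q = lft P x` (`cliq_shape`), and every subset of `lft P x` is `lft P' x` with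
`P' = its image under Prod.fst` (or: it lies in `HH` and `HH_shape`: an `l`-subset of the `(l+1)`-set
`Q` is `Q.erase z`). So `card_fib` with `k = l` gives
`𝒢.card * q ^ (N - l) = ∑ ψ (|ψ| = l) #{x | lft ψ x ∈ 𝒢} ≥ ∑ ψ ∈ U, #{x | lft ψ x ∈ 𝒢}`,
and for `ψ ∈ U`, `#{x | lft ψ x ∈ 𝒢} * q + B.card * q ^ N ≥ q ^ N * q` by `card_bad_le` (the two
filters are complementary in a set of `q ^ N` functions). So
`𝒢.card * q ^ (N - l) * q + U.card * B.card * q ^ N ≥ U.card * q ^ (N + 1)`; with
`q ^ N = q ^ (N - l) * q * q ^ (l-1)` and `q ^ (N+1) = q ^ (N - l) * q * q ^ l` cancel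
`q ^ (N - l) * q > 0`.
-/

set_option autoImplicit false

namespace Pool.Agent.Work.MP_0ea01d_co.TB

open Finset

variable {V : Type} [DecidableEq V] [Fintype V] {q : ℕ} [NeZero q] {l : ℕ}

theorem card_cov_ge (hl : 2 ≤ l) {G B : Finset (Finset V)} (hG : Free l G) (hB : Tame l G B)
    (α : Finset V → ZMod q) (hα : Set.InjOn α (B : Set (Finset V))) :
    (covd G B).card * q ^ l ≤
      (Gr l (cliq l (HH G B α))).card + (covd G B).card * B.card * q ^ (l - 1) := by
  rcases (covd G B).eq_empty_or_nonempty with h0 | ⟨ψ0, hψ0⟩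
  · rw [h0]
    simp
  have hcov : ∀ ψ ∈ covd G B, ψ.card = l := fun ψ hψ => hG.card ψ (mem_filter.1 hψ).1
  have hlN : l ≤ Fintype.card V := by
    rw [← hcov ψ0 hψ0]
    exact card_le_univ ψ0
  have hq : 0 < q := Nat.pos_of_ne_zero (NeZero.ne q)
  have hshape : ∀ e ∈ Gr l (cliq l (HH G B α)),
      ∃ (P : Finset V) (x : V → ZMod q), P.card = l ∧ e = lft P x := by
    intro e he
    obtain ⟨T, hT, heT, hec⟩ := mem_Gr.1 he
    obtain ⟨P', x, -, rfl⟩ := cliq_shape hl hG hB α hT
    have h1 : e = lft (e.image Prod.fst) x := by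
      ext z
      rw [mem_lft]
      constructor
      · intro hz
        exact ⟨mem_image_of_mem _ hz, (mem_lft.1 (heT hz)).2⟩
      · rintro ⟨hz, hz2⟩
        obtain ⟨z', hz', hzz⟩ := mem_image.1 hz
        have h2 := (mem_lft.1 (heT hz')).2
        have h3 : z' = z := by
          apply Prod.ext hzz
          rw [h2, hz2, hzz]
        rw [← h3]
        exact hz'
    refine ⟨e.image Prod.fst, x, ?_, h1⟩
    rw [← card_lft (e.image Prod.fst) x, ← h1]
    exact hec
  have hfib := card_fib l (Gr l (cliq l (HH G B α))) hshape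
  rw [ZMod.card] at hfib
  have hsub : covd G B ⊆ univ.powersetCard l := by
    intro ψ hψ
    exact mem_powersetCard.2 ⟨subset_univ _, hcov ψ hψ⟩
  have hge : ∑ ψ ∈ covd G B,
      (univ.filter fun x : V → ZMod q => lft ψ x ∈ Gr l (cliq l (HH G B α))).card ≤
      (Gr l (cliq l (HH G B α))).card * q ^ (Fintype.card V - l) := by
    rw [hfib]
    exact sum_le_sum_of_subset hsub
  have hone : ∀ ψ ∈ covd G B, q ^ Fintype.card V * q ≤
      (univ.filter fun x : V → ZMod q => lft ψ x ∈ Gr l (cliq l (HH G B α))).card * q +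
        B.card * q ^ Fintype.card V := by
    intro ψ hψ
    have h1 := card_bad_le hG hB α hα hψ
    have h2 : (univ.filter fun x : V → ZMod q => lft ψ x ∈ Gr l (cliq l (HH G B α))).card +
        (univ.filter fun x : V → ZMod q => lft ψ x ∉ Gr l (cliq l (HH G B α))).card =
        q ^ Fintype.card V := by
      rw [card_filter_add_card_filter_not, card_univ, Fintype.card_fun, ZMod.card]
    calc q ^ Fintype.card V * q = ((univ.filter fun x : V → ZMod q =>
            lft ψ x ∈ Gr l (cliq l (HH G B α))).card +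
          (univ.filter fun x : V → ZMod q =>
            lft ψ x ∉ Gr l (cliq l (HH G B α))).card) * q := by rw [h2]
      _ ≤ _ := by
        rw [add_mul]
        exact Nat.add_le_add_left h1 _
  have hsum := sum_le_sum hone
  rw [sum_const, smul_eq_mul, sum_add_distrib, sum_const, smul_eq_mul, ← sum_mul] at hsum
  have hN : q ^ Fintype.card V = q ^ (Fintype.card V - l) * q ^ l := by
    rw [← pow_add, Nat.sub_add_cancel hlN]
  have hql : q ^ l = q ^ (l - 1) * q := by
    rw [← pow_succ, Nat.sub_add_cancel (by omega)]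
  have hpos : 0 < q ^ (Fintype.card V - l) * q := by positivity
  apply Nat.le_of_mul_le_mul_right _ hpos
  calc (covd G B).card * q ^ l * (q ^ (Fintype.card V - l) * q)
      = (covd G B).card * (q ^ Fintype.card V * q) := by
        rw [hN]
        ring
    _ ≤ _ := hsum
    _ ≤ (Gr l (cliq l (HH G B α))).card * q ^ (Fintype.card V - l) * q +
        (covd G B).card * (B.card * q ^ Fintype.card V) :=
        Nat.add_le_add_right (Nat.mul_le_mul_right _ hge) _
    _ = _ := by
        rw [hN, hql]
        ring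

end Pool.Agent.Work.MP_0ea01d_co.TB
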