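import Pool.Agent.Work.MP_0ea01d_co.TB.UpCount
import Pool.Agent.Work.MP_0ea01d_co.TB.LowCount

/-!
# Module TameMain (S). The completion of a tame pair.

Proof. As `B.card ≤ q = card (ZMod q)` there is `α : Finset V → ZMod q` injective on `B` (compose an
embedding `B ↪ ZMod q`, `Function.Embedding.nonempty_of_card_le`, extended by `0` off `B`). Take
`F = cliq l (HH G B α)`. `Clo l F`: `card` by definition; `closed`: if every `l`-subset of `T`
(`T.card = l + 1`) is contained in a member of `F`, then every `T.erase z`, `z ∈ T`, has `l` elements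
and is an `l`-subset of a clique `Q`, i.e. `Q.erase z'` (an `l`-subset of an `(l+1)`-set `Q` is
`Q.erase z'` for the point `z'` of `Q` outside), hence it lies in `HH`; so `T ∈ cliq`.
`NN l F = (Gr l F).card - F.card` and use `card_cov_ge`, `card_cliq_le` (cast to `ℤ`).
-/

set_option autoImplicit false

namespace Pool.Agent.Work.MP_0ea01d_co.TB

open Finset

variable {V : Type} [DecidableEq V] [Fintype V] {l : ℕ}

theorem clo_cliq {W : Type} [DecidableEq W] [Fintype W] (l : ℕ) (H : Finset (Finset W)) :
    Clo l (cliq l H) := by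
  constructor
  · intro T hT
    exact (mem_powersetCard.1 (mem_filter.1 hT).1).2
  · intro T hT h
    refine mem_filter.2 ⟨mem_powersetCard.2 ⟨subset_univ _, hT⟩, fun z hz => ?_⟩
    have hc : (T.erase z).card = l := by
      rw [card_erase_of_mem hz, hT, Nat.add_sub_cancel]
    obtain ⟨Q, hQ, hsub⟩ := h (T.erase z) (erase_subset _ _) hc
    obtain ⟨hQ1, hQ2⟩ := mem_filter.1 hQ
    have hQc := (mem_powersetCard.1 hQ1).2
    obtain ⟨z', hz', hz'e⟩ : ∃ z' ∈ Q, z' ∉ T.erase z := by
      by_contra hcon
      push Not at hcon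
      have := card_le_card hcon
      omega
    have he : T.erase z = Q.erase z' := by
      apply eq_of_subset_of_card_le
      · intro y hy
        refine mem_erase.2 ⟨?_, hsub hy⟩
        rintro rfl
        exact hz'e hy
      · rw [card_erase_of_mem hz', hc, hQc, Nat.add_sub_cancel]
    rw [he]
    exact hQ2 z' hz'

theorem tame_main (hl : 2 ≤ l) {G B : Finset (Finset V)} (hG : Free l G) (hB : Tame l G B)
    (q : ℕ) [NeZero q] (hq : B.card ≤ q) :
    ∃ F : Finset (Finset (V × ZMod q)), Clo l F ∧
      ((covd G B).card : ℤ) * q ^ l - B.card * q ^ l -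
        ((covd G B).card * B.card + 2 ^ Fintype.card V * B.card ^ 2) * q ^ (l - 1) ≤ NN l F := by
  obtain ⟨α, hα⟩ : ∃ α : Finset V → ZMod q, Set.InjOn α (B : Set (Finset V)) := by
    have h1 : Fintype.card B ≤ Fintype.card (ZMod q) := by
      rw [ZMod.card, Fintype.card_coe]
      exact hq
    obtain ⟨f⟩ := Function.Embedding.nonempty_of_card_le h1
    refine ⟨fun P => if h : P ∈ B then f ⟨P, h⟩ else 0, ?_⟩
    intro P hP P' hP' hPP
    have hP1 : P ∈ B := hP
    have hP2 : P' ∈ B := hP'
    simp only [dif_pos hP1, dif_pos hP2] at hPP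
    exact congrArg Subtype.val (f.injective hPP)
  refine ⟨cliq l (HH G B α), clo_cliq l _, ?_⟩
  have h1 := card_cov_ge hl hG hB α hα
  have h2 := card_cliq_le hl hG hB α hα
  unfold NN
  zify at h1 h2
  nlinarith [h1, h2]

end Pool.Agent.Work.MP_0ea01d_co.TB
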