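import Pool.Agent.Work.MP_0ea01d_co.TB.Stage1
import Pool.Agent.Work.MP_0ea01d_co.TB.TameMain

/-!
# Module Bridge (M). Small maximal antichains for all large `n` from a finite configuration.

Proof. Write `N = card V`, `u0 = U0.card`, `b0 = B0.card`. Choose `r ≥ 1` so large that
`β := u0 - b0 - u0 * l / r > c * N ^ l` (strict inequality `hc`). Apply `stage_one` with this `r`:
`V' = V × ZMod r`, `N' = card V' = N * r`, `G'`, `B'`, `D := |covd G' B'| - |B'|` (a real number)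
`≥ u0 r^l - u0 l r^(l-1) - b0 r^l = β r ^ l > c (N r) ^ l = c N' ^ l`. Note `N' > 0`: `U0` is nonempty
(`0 ≤ c * N ^ l < u0 - b0`), so `G` has a member of card `l ≥ 2`.
For large `n` let `q = n / N'` (natural division), `q ≥ 1`, `q ≥ B'.card`, `N' * q ≤ n`,
`q > n / N' - 1`. `tame_main` gives `F` on `V' × ZMod q` (card `N' q ≤ n`) with `Clo l F` and
`NN l F ≥ D q ^ l - K q ^ (l-1)`, `K` independent of `n`. Embed `V' × ZMod q` in `Fin n`
(`Function.Embedding.nonempty_of_card_le`), `Clo.map`, `NN_mapF`, `Clo.mem_S` (`l + 1 ≤ n`): there is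
`m ∈ S n l`, `(m : ℤ) = n.choose l - NN l F`. Finally `D q ^ l - K q ^ (l-1) ≥ c n ^ l` for large `n`:
divide by `n ^ l`; `q / n → 1 / N'`, so the left side tends to `D / N' ^ l > c` and `q ^ (l-1) / n ^ l → 0`.
-/

set_option autoImplicit false

namespace Pool.Agent.Work.MP_0ea01d_co.TB

open Finset Filter Topology

variable {V : Type} [DecidableEq V] [Fintype V] {l : ℕ}

private theorem div_lim {M : ℕ} (hM : 0 < M) :
    Tendsto (fun n : ℕ => ((n / M : ℕ) : ℝ) / n) atTop (𝓝 (1 / M)) := by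
  have h1 : Tendsto (fun x : ℝ => (⌊(1 / (M : ℝ)) * x⌋₊ : ℝ) / x) atTop (𝓝 (1 / (M : ℝ))) :=
    tendsto_nat_floor_mul_div_atTop (by positivity)
  have h2 := h1.comp (tendsto_natCast_atTop_atTop (R := ℝ))
  refine h2.congr fun n => ?_
  simp only [Function.comp]
  rw [one_div, inv_mul_eq_div, Nat.floor_div_eq_div]

private theorem growth {l : ℕ} (hl : 1 ≤ l) {M : ℕ} (hM : 0 < M) {D K c : ℝ}
    (h : c * (M : ℝ) ^ l < D) :
    ∀ᶠ n : ℕ in atTop, c * (n : ℝ) ^ l ≤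
      D * ((n / M : ℕ) : ℝ) ^ l - K * ((n / M : ℕ) : ℝ) ^ (l - 1) := by
  have hM' : (0 : ℝ) < M := by exact_mod_cast hM
  have h1 := div_lim hM
  have h2 : Tendsto (fun n : ℕ => D * (((n / M : ℕ) : ℝ) / n) ^ l -
      K * (((n / M : ℕ) : ℝ) / n) ^ (l - 1) * (1 / (n : ℝ))) atTop
      (𝓝 (D * (1 / M) ^ l - K * (1 / M) ^ (l - 1) * 0)) :=
    ((h1.pow l).const_mul D).sub (((h1.pow (l - 1)).const_mul K).mul
      tendsto_one_div_atTop_nhds_zero_nat)
  have h3 : c < D * (1 / M) ^ l - K * (1 / M) ^ (l - 1) * 0 := by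
    rw [mul_zero, sub_zero, one_div, inv_pow, ← div_eq_mul_inv, lt_div_iff₀ (by positivity)]
    exact h
  filter_upwards [h2.eventually (lt_mem_nhds h3), eventually_gt_atTop 0] with n hn hn0
  have hn' : (0 : ℝ) < n := by exact_mod_cast hn0
  obtain ⟨k, rfl⟩ : ∃ k, l = k + 1 := ⟨l - 1, by omega⟩
  have e : D * (((n / M : ℕ) : ℝ) / n) ^ (k + 1) -
      K * (((n / M : ℕ) : ℝ) / n) ^ (k + 1 - 1) * (1 / (n : ℝ)) =
      (D * ((n / M : ℕ) : ℝ) ^ (k + 1) - K * ((n / M : ℕ) : ℝ) ^ (k + 1 - 1)) /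
        (n : ℝ) ^ (k + 1) := by
    rw [Nat.add_sub_cancel, div_pow, div_pow]
    have hk : ((n : ℝ)) ^ k ≠ 0 := by positivity
    have hn1 : (n : ℝ) ≠ 0 := hn'.ne'
    rw [sub_div, pow_succ (n : ℝ) k]
    field_simp
  rw [e, lt_div_iff₀ (by positivity)] at hn
  exact hn.le

theorem bridge (hl : 2 ≤ l) {G B0 U0 : Finset (Finset V)} {u w : Finset V → V}
    (hG : Free l G) (hB0 : ∀ P ∈ B0, P.card = l + 1 ∧ u P ∈ P ∧ w P ∈ P ∧ u P ≠ w P)
    (hU : ∀ ψ ∈ U0, ψ ∈ G ∧ ∃ P ∈ B0, ∃ k ∈ P, k ≠ u P ∧ k ≠ w P ∧ ψ = P.erase k)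
    (c : ℝ) (hc0 : 0 ≤ c) (hc : c * (Fintype.card V : ℝ) ^ l < (U0.card : ℝ) - B0.card) :
    ∀ᶠ n : ℕ in atTop, ∃ m ∈ S n l, (m : ℝ) ≤ n.choose l - c * (n : ℝ) ^ l := by
  have hδ : 0 < (U0.card : ℝ) - B0.card - c * (Fintype.card V : ℝ) ^ l := by linarith
  obtain ⟨r0, hr0⟩ := exists_nat_gt
    ((U0.card : ℝ) * l / ((U0.card : ℝ) - B0.card - c * (Fintype.card V : ℝ) ^ l))
  obtain ⟨r, hr, hrr⟩ : ∃ r : ℕ, 0 < r ∧ (U0.card : ℝ) * l /
      ((U0.card : ℝ) - B0.card - c * (Fintype.card V : ℝ) ^ l) < r := by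
    refine ⟨r0 + 1, by omega, hr0.trans ?_⟩
    push_cast
    linarith
  haveI : NeZero r := ⟨by omega⟩
  have hr' : (0 : ℝ) < r := by exact_mod_cast hr
  rw [div_lt_iff₀ hδ] at hrr
  obtain ⟨G', B', hG', hB', h1, h2⟩ := stage_one hl hG hB0 hU r
  have hV : 0 < Fintype.card V := by
    by_contra hV
    have hV0 : Fintype.card V = 0 := by omega
    have hU0 : U0 = ∅ := by
      rw [eq_empty_iff_forall_notMem]
      intro ψ hψ
      have h3 := hG.card ψ (hU ψ hψ).1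
      have h4 := card_le_univ ψ
      omega
    rw [hU0, hV0] at hδ
    have : (0 : ℝ) ^ l = 0 := zero_pow (by omega)
    simp only [card_empty, Nat.cast_zero, this, mul_zero] at hδ
    have h5 : (0 : ℝ) ≤ B0.card := by positivity
    linarith
  have hN' : Fintype.card (V × ZMod r) = Fintype.card V * r := by
    rw [Fintype.card_prod, ZMod.card]
  have hN0 : 0 < Fintype.card (V × ZMod r) := by
    rw [hN']
    positivity
  have hD : c * ((Fintype.card (V × ZMod r) : ℕ) : ℝ) ^ l <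
      ((covd G' B').card : ℝ) - B'.card := by
    have h1' : (B'.card : ℝ) ≤ B0.card * (r : ℝ) ^ l := by exact_mod_cast h1
    have h2' : (U0.card : ℝ) * (r : ℝ) ^ l ≤
        (covd G' B').card + U0.card * l * (r : ℝ) ^ (l - 1) := by exact_mod_cast h2
    have h3 : (r : ℝ) ^ l = r * (r : ℝ) ^ (l - 1) := by
      rw [← pow_succ']
      congr 1
      omega
    have h4 : (0 : ℝ) < (r : ℝ) ^ (l - 1) := by positivity
    rw [hN']
    push_cast
    rw [mul_pow]
    have h5 := mul_lt_mul_of_pos_right hrr h4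
    rw [h3] at h1' h2' ⊢
    nlinarith
  filter_upwards [growth (l := l) (by omega) hN0 (K := (covd G' B').card * B'.card +
    2 ^ Fintype.card (V × ZMod r) * (B'.card : ℝ) ^ 2) hD,
    eventually_ge_atTop (Fintype.card (V × ZMod r) * (B'.card + 1)),
    eventually_ge_atTop (l + 1)] with n hn hn1 hn2
  have hq : B'.card + 1 ≤ n / Fintype.card (V × ZMod r) := by
    rw [Nat.le_div_iff_mul_le hN0, mul_comm]
    exact hn1
  haveI : NeZero (n / Fintype.card (V × ZMod r)) := ⟨by omega⟩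
  obtain ⟨F, hF, hNN⟩ := tame_main hl hG' hB' (n / Fintype.card (V × ZMod r)) (by omega)
  have hcard : Fintype.card ((V × ZMod r) × ZMod (n / Fintype.card (V × ZMod r))) ≤
      Fintype.card (Fin n) := by
    rw [Fintype.card_prod, ZMod.card, Fintype.card_fin]
    exact Nat.mul_div_le n _
  obtain ⟨e⟩ := Function.Embedding.nonempty_of_card_le hcard
  obtain ⟨m, hm, hme⟩ := (hF.map (by omega) e).mem_S hn2
  refine ⟨m, hm, ?_⟩
  rw [NN_mapF] at hme
  have hme' : (m : ℝ) = n.choose l - (NN l F : ℤ) := by exact_mod_cast hme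
  have hNN' : ((covd G' B').card : ℝ) * ((n / Fintype.card (V × ZMod r) : ℕ) : ℝ) ^ l -
      B'.card * ((n / Fintype.card (V × ZMod r) : ℕ) : ℝ) ^ l -
        ((covd G' B').card * B'.card + 2 ^ Fintype.card (V × ZMod r) * (B'.card : ℝ) ^ 2) *
          ((n / Fintype.card (V × ZMod r) : ℕ) : ℝ) ^ (l - 1) ≤ ((NN l F : ℤ) : ℝ) := by
    have hc := (Int.cast_le (R := ℝ)).2 hNN
    push_cast at hc ⊢
    exact hc
  rw [hme']
  have e1 : (((covd G' B').card : ℝ) - B'.card) *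
      ((n / Fintype.card (V × ZMod r) : ℕ) : ℝ) ^ l =
      ((covd G' B').card : ℝ) * ((n / Fintype.card (V × ZMod r) : ℕ) : ℝ) ^ l -
      B'.card * ((n / Fintype.card (V × ZMod r) : ℕ) : ℝ) ^ l := by ring
  rw [e1] at hn
  linarith

end Pool.Agent.Work.MP_0ea01d_co.TB
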