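import Pool.Agent.Work.MP_0ea01d_co.Good

/-!
# Minimum of `S(n,l)` and the Turan density: definitions

Work files for the theorem
`min S(n,l) ≤ (1 - t_l + 1/(l-1) + o(1)) C(n,l)`, that is
`limsup min S(n,l) / C(n,l) ≤ (l/(l-1)) (1 - ((l-1)/l) t_l)`, for every `l ≥ 3`.

All hypergraphs are `Finset (Finset V)`. The vertex set of the blow-up of `V` with label set `A` is
`V × A`; a transversal set over `P ⊆ V` is `lft P x = {(v, x v) : v ∈ P}` for a TOTAL function
`x : V → A` (only the values on `P` matter).
-/

set_option autoImplicit false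

namespace Pool.Agent.Work.MP_0ea01d_co.TB

open Finset

/-- The `(l+1)`-sets `Q` such that `Q` minus any of its points lies in `H`. -/
def cliq {W : Type} [DecidableEq W] [Fintype W] (l : ℕ) (H : Finset (Finset W)) :
    Finset (Finset W) :=
  (univ.powersetCard (l + 1)).filter fun Q => ∀ z ∈ Q, Q.erase z ∈ H

/-- `G` is an `l`-graph without a complete `l`-graph on `l + 1` points. -/
structure Free {V : Type} [DecidableEq V] (l : ℕ) (G : Finset (Finset V)) : Prop where
  card : ∀ ψ ∈ G, ψ.card = l
  free : ∀ Q : Finset V, Q.card = l + 1 → ∃ y ∈ Q, Q.erase y ∉ G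

/-- The transversal set over `P` with labels `x`. -/
def lft {V A : Type} [DecidableEq V] [DecidableEq A] (P : Finset V) (x : V → A) :
    Finset (V × A) :=
  P.image fun v => (v, x v)

/-- The points of `P` whose removal leaves a member of `G`. -/
def core {V : Type} [DecidableEq V] (G : Finset (Finset V)) (P : Finset V) : Finset V :=
  P.filter fun c => P.erase c ∈ G

/-- A family `B` of `(l+1)`-sets; each of them has two points whose removal gives a non-member of
`G` and a point whose removal gives a member of `G`. -/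
structure Tame {V : Type} [DecidableEq V] (l : ℕ) (G B : Finset (Finset V)) : Prop where
  card : ∀ P ∈ B, P.card = l + 1
  two : ∀ P ∈ B, ∃ y ∈ P, ∃ y' ∈ P, y ≠ y' ∧ P.erase y ∉ G ∧ P.erase y' ∉ G
  one : ∀ P ∈ B, ∃ c ∈ P, P.erase c ∈ G

/-- The members of `G` contained in a member of `B`. -/
def covd {V : Type} [DecidableEq V] (G B : Finset (Finset V)) : Finset (Finset V) :=
  G.filter fun ψ => ∃ P ∈ B, ψ ⊆ P

/-- The label condition of `P`: the labels over the core of `P` sum to `α P`. -/
def Lab {V : Type} [DecidableEq V] {q : ℕ} (G : Finset (Finset V)) (α : Finset V → ZMod q)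
    (P : Finset V) (x : V → ZMod q) : Prop :=
  ∑ c ∈ core G P, x c = α P

/-- The added sets: `φ ∉ G` is `P` minus a point for some `P ∈ B` whose label condition holds. -/
def InF {V : Type} [DecidableEq V] {q : ℕ} (G B : Finset (Finset V)) (α : Finset V → ZMod q)
    (φ : Finset V) (x : V → ZMod q) : Prop :=
  ∃ P ∈ B, ∃ y ∈ P, φ = P.erase y ∧ φ ∉ G ∧ Lab G α P x

/-- The kept sets: `ψ ∈ G`, and `ψ` contains no `P` minus two points of `P ∖ core P` with the label
condition of `P`, `P ∈ B`. -/
def InH {V : Type} [DecidableEq V] {q : ℕ} (G B : Finset (Finset V)) (α : Finset V → ZMod q)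
    (ψ : Finset V) (x : V → ZMod q) : Prop :=
  ψ ∈ G ∧ ∀ P ∈ B, ∀ y ∈ P, ∀ y' ∈ P, y ≠ y' → P.erase y ∉ G → P.erase y' ∉ G →
    (P.erase y).erase y' ⊆ ψ → ¬ Lab G α P x

open Classical in
/-- The `l`-graph on `V × ZMod q`. -/
noncomputable def HH {V : Type} [DecidableEq V] [Fintype V] {q : ℕ} [NeZero q]
    (G B : Finset (Finset V)) (α : Finset V → ZMod q) : Finset (Finset (V × ZMod q)) :=
  univ.filter fun e => ∃ (ψ : Finset V) (x : V → ZMod q), e = lft ψ x ∧
    (InF G B α ψ x ∨ InH G B α ψ x)

open Classical in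
/-- The largest number of members of an `l`-graph on `n` points without a complete `l`-graph on
`l + 1` points. -/
noncomputable def ex (l n : ℕ) : ℕ :=
  ((univ : Finset (Finset (Finset (Fin n)))).filter fun G => Free l G).sup card

end Pool.Agent.Work.MP_0ea01d_co.TB
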