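import Pool.Agent.Work.MP_0ea01d_co.TB.Defs

/-!
# Module ExLim (M). The Turan density exists.

`exists_ex`: the set in the definition of `ex` is nonempty (the empty graph is `Free l`: `free`: the
set `Q` has `l + 1 ≥ 1` points, take any), so the supremum is attained (`exists_mem_eq_sup` or
`Finset.exists_max_image`). `le_ex`: `le_sup`.

`ex_succ`: let `G` on `Fin (n+1)` be `Free l` with `ex l (n+1)` members. For `v : Fin (n+1)` let `G_v`
be the members not containing `v`; through the embedding `Fin n ↪ Fin (n+1)`, `v.succAbove`, it is the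
image of a graph on `Fin n` (`Finset.preimage`/`comap` of each member), which is `Free l`; so
`|G_v| ≤ ex l n`. Every member of `G` (`l` points) is in exactly `n + 1 - l` of the `G_v`. Sum over `v`.

`ex_tendsto`: for `n ≥ l`, `(n + 1 - l) * (n+1).choose l = (n + 1) * n.choose l`
(`Nat.succ_mul_choose_eq`/`Nat.choose_mul_succ_eq`), so by `ex_succ` the sequence
`ex l n / n.choose l` is non-increasing for `n ≥ l`, and it is bounded below by `0`; so it converges
(`tendsto_atTop_ciInf` for the antitone shifted sequence `n ↦ a (n + l)`, then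
`tendsto_add_atTop_iff_nat`). It is `≤ 1` since `ex l n ≤ n.choose l`.
-/

set_option autoImplicit false

namespace Pool.Agent.Work.MP_0ea01d_co.TB

open Finset Filter Topology

private theorem free_empty (l n : ℕ) : Free l (∅ : Finset (Finset (Fin n))) := by
  refine ⟨fun ψ h => absurd h (notMem_empty ψ), fun Q hQ => ?_⟩
  have h : 0 < Q.card := by omega
  obtain ⟨y, hy⟩ := card_pos.1 h
  exact ⟨y, hy, notMem_empty _⟩

theorem exists_ex (l n : ℕ) : ∃ G : Finset (Finset (Fin n)), Free l G ∧ G.card = ex l n := by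
  classical
  have hne : (((univ : Finset (Finset (Finset (Fin n)))).filter fun G => Free l G)).Nonempty :=
    ⟨∅, mem_filter.2 ⟨mem_univ _, free_empty l n⟩⟩
  obtain ⟨G, hG, h⟩ := exists_mem_eq_sup _ hne card
  refine ⟨G, (mem_filter.1 hG).2, ?_⟩
  rw [ex]
  convert h.symm

theorem le_ex {l n : ℕ} {G : Finset (Finset (Fin n))} (hG : Free l G) : G.card ≤ ex l n := by
  classical
  rw [ex]
  exact le_sup (f := card) (mem_filter.2 ⟨mem_univ _, hG⟩)

private theorem link_le {l n : ℕ} {G : Finset (Finset (Fin (n + 1)))} (hG : Free l G)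
    (v : Fin (n + 1)) : (G.filter fun ψ => v ∉ ψ).card ≤ ex l n := by
  classical
  let e : Fin n ↪ Fin (n + 1) := v.succAboveEmb
  let G' : Finset (Finset (Fin n)) := univ.filter fun ψ => ψ.map e ∈ G
  have hG' : Free l G' := by
    refine ⟨fun ψ hψ => ?_, fun Q hQ => ?_⟩
    · have h := hG.card _ (mem_filter.1 hψ).2
      rwa [card_map] at h
    · obtain ⟨y, hy, hy'⟩ := hG.free (Q.map e) (by rw [card_map, hQ])
      obtain ⟨x, hx, rfl⟩ := Finset.mem_map.1 hy
      refine ⟨x, hx, fun h => hy' ?_⟩
      have h2 := (mem_filter.1 h).2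
      rwa [map_erase] at h2
  refine le_trans ?_ (le_ex hG')
  have hback : ∀ ψ : Finset (Fin (n + 1)), v ∉ ψ →
      (univ.filter fun i : Fin n => e i ∈ ψ).map e = ψ := by
    intro ψ hv
    ext z
    rw [Finset.mem_map]
    constructor
    · rintro ⟨i, hi, rfl⟩
      exact (mem_filter.1 hi).2
    · intro hz
      have hzv : z ≠ v := fun h => hv (h ▸ hz)
      obtain ⟨i, hi⟩ := Fin.exists_succAbove_eq hzv
      exact ⟨i, mem_filter.2 ⟨mem_univ _, by
        change v.succAbove i ∈ ψ
        rw [hi]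
        exact hz⟩, hi⟩
  refine card_le_card_of_injOn (fun ψ => univ.filter fun i : Fin n => e i ∈ ψ) ?_ ?_
  · intro ψ hψ
    have h := mem_filter.1 (mem_coe.1 hψ)
    refine mem_coe.2 (mem_filter.2 ⟨mem_univ _, ?_⟩)
    rw [hback ψ h.2]
    exact h.1
  · intro ψ hψ ψ' hψ' h
    have h1 := (mem_filter.1 (mem_coe.1 hψ)).2
    have h2 := (mem_filter.1 (mem_coe.1 hψ')).2
    have h3 := congrArg (fun t => Finset.map e t) h
    simp only at h3
    rwa [hback ψ h1, hback ψ' h2] at h3

theorem ex_succ (l n : ℕ) (hn : l ≤ n) : (n + 1 - l) * ex l (n + 1) ≤ (n + 1) * ex l n := by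
  classical
  have _ := hn
  obtain ⟨G, hG, hc⟩ := exists_ex l (n + 1)
  have h1 : ∑ v : Fin (n + 1), (G.filter fun ψ => v ∉ ψ).card = (n + 1 - l) * G.card := by
    simp only [card_filter]
    rw [sum_comm]
    have h2 : ∀ ψ ∈ G, (∑ v : Fin (n + 1), if v ∉ ψ then 1 else 0) = n + 1 - l := by
      intro ψ hψ
      rw [← card_filter]
      have h3 : (univ.filter fun v : Fin (n + 1) => v ∉ ψ) = ψᶜ := by
        ext v
        simp
      rw [h3, card_compl, Fintype.card_fin, hG.card ψ hψ]
    rw [sum_congr rfl h2, sum_const, smul_eq_mul, mul_comm]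
  rw [← hc, ← h1]
  calc ∑ v : Fin (n + 1), (G.filter fun ψ => v ∉ ψ).card ≤ ∑ v : Fin (n + 1), ex l n :=
        sum_le_sum fun v _ => link_le hG v
    _ = (n + 1) * ex l n := by simp

theorem ex_tendsto (l : ℕ) :
    ∃ t : ℝ, t ≤ 1 ∧ Tendsto (fun n : ℕ => (ex l n : ℝ) / n.choose l) atTop (𝓝 t) := by
  let b : ℕ → ℝ := fun k => (ex l (k + l) : ℝ) / (k + l).choose l
  have hanti : Antitone b := by
    refine antitone_nat_of_succ_le fun k => ?_
    change (ex l (k + 1 + l) : ℝ) / ((k + 1 + l).choose l) ≤ (ex l (k + l) : ℝ) / (k + l).choose l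
    have e1 : k + 1 + l = k + l + 1 := by ring
    rw [e1]
    have h1 := ex_succ l (k + l) (by omega)
    have h2 := Nat.choose_mul_succ_eq (k + l) l
    have h3 : k + l + 1 - l = k + 1 := by omega
    rw [h3] at h1 h2
    have c1 : 0 < (k + l).choose l := Nat.choose_pos (by omega)
    have c2 : 0 < (k + l + 1).choose l := Nat.choose_pos (by omega)
    rw [div_le_div_iff₀ (by exact_mod_cast c2) (by exact_mod_cast c1)]
    have h4 : (k + 1) * (ex l (k + l + 1) * (k + l).choose l) ≤
        (k + 1) * (ex l (k + l) * (k + l + 1).choose l) := by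
      calc (k + 1) * (ex l (k + l + 1) * (k + l).choose l) =
            ((k + 1) * ex l (k + l + 1)) * (k + l).choose l := by ring
        _ ≤ ((k + l + 1) * ex l (k + l)) * (k + l).choose l := Nat.mul_le_mul_right _ h1
        _ = ex l (k + l) * ((k + l).choose l * (k + l + 1)) := by ring
        _ = ex l (k + l) * ((k + l + 1).choose l * (k + 1)) := by rw [h2]
        _ = (k + 1) * (ex l (k + l) * (k + l + 1).choose l) := by ring
    have h5 := Nat.le_of_mul_le_mul_left h4 (Nat.succ_pos k)
    exact_mod_cast h5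
  have hbdd : BddBelow (Set.range b) := ⟨0, by
    rintro x ⟨k, rfl⟩
    positivity⟩
  have hlim := tendsto_atTop_ciInf hanti hbdd
  refine ⟨⨅ i, b i, ?_, ?_⟩
  · refine le_of_tendsto' hlim fun k => ?_
    obtain ⟨G, hG, hc⟩ := exists_ex l (k + l)
    have h1 : G ⊆ (univ : Finset (Fin (k + l))).powersetCard l := fun ψ hψ =>
      mem_powersetCard.2 ⟨subset_univ _, hG.card ψ hψ⟩
    have h2 := card_le_card h1
    rw [card_powersetCard, card_univ, Fintype.card_fin, hc] at h2
    exact div_le_one_of_le₀ (by exact_mod_cast h2) (by positivity)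
  · exact (tendsto_add_atTop_iff_nat l).1 hlim

end Pool.Agent.Work.MP_0ea01d_co.TB
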