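import Pool.Agent.Work.MP_0ea01d_co.TB.FRDefs

/-!
# Module FRCount (M). Averaging over the shift `a`.

Proof. `∑ a, (FR l p a).card = ∑ f (|f| = l) #{a | f ∈ FR l p a}`. For given `f`, `a ↦ ` (a witness `t`)
is injective: `a = (∑ z ∈ f, p z) - t`. So `#{a | f ∈ FR l p a} ≤ #{t < m | ∃ j, f misses the parts
j+1, .., j+t} ≤ 1 + ∑ t ∈ Ico 1 m, ∑ j, (1 if f misses them)`. Sum over `f`: for given `t, j` the number
of `f` missing the parts `j+1, .., j+t` is the number of `l`-subsets of a set with at most `N - t s`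
points, where `N = m s` and every part has `s` points (`hp`; the parts `j + i`, `1 ≤ i ≤ t < m`, are
distinct). So `∑ a, (FR l p a).card ≤ N.choose l + ∑ t ∈ Ico 1 m, m * (N - t s).choose l`, and some
`a` has `m * (FR l p a).card ≤` the right side (`exists_le_card..`/ pigeonhole:
`Finset.exists_le_of_sum_le` with `card (ZMod m) = m`).
-/

set_option autoImplicit false

namespace Pool.Agent.Work.MP_0ea01d_co.TB

open Finset

/-- `f` misses the parts `j + 1, …, j + t` -/
private def Ms {N m : ℕ} (p : Fin N → ZMod m) (t : ℕ) (j : ZMod m) (f : Finset (Fin N)) : Prop :=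
  ∀ i : ℕ, 1 ≤ i → i ≤ t → ∀ z ∈ f, p z ≠ j + (i : ℕ)

private theorem mem_FR' {l N m : ℕ} {p : Fin N → ZMod m} {a : ZMod m} {f : Finset (Fin N)}
    (hf : f ∈ FR l p a) : f ∈ (univ : Finset (Fin N)).powersetCard l ∧
      ∃ t < m, ∃ j : ZMod m, ∑ z ∈ f, p z = a + (t : ℕ) ∧ Ms p t j f := by
  unfold FR at hf
  simp only [Finset.mem_filter] at hf
  exact hf

open Classical in
private theorem card_Ms (l : ℕ) {m s : ℕ} [NeZero m] (p : Fin (m * s) → ZMod m)
    (hp : ∀ j : ZMod m, (univ.filter fun z => p z = j).card = s) {t : ℕ} (ht : t < m)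
    (j : ZMod m) : (((univ : Finset (Fin (m * s))).powersetCard l).filter
      fun f => Ms p t j f).card ≤ (m * s - t * s).choose l := by
  let U : Finset (Fin (m * s)) := (Icc 1 t).biUnion fun i => univ.filter fun z => p z = j + (i : ℕ)
  have hU : U.card = t * s := by
    rw [card_biUnion]
    · rw [sum_congr rfl fun i _ => hp _, sum_const, Nat.card_Icc, smul_eq_mul]
      congr 1
    · intro i hi i' hi' hii
      rw [Function.onFun, disjoint_left]
      intro z hz hz'
      have h1 := (mem_filter.1 hz).2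
      have h2 := (mem_filter.1 hz').2
      rw [h1] at h2
      have h3 : ((i : ℕ) : ZMod m) = ((i' : ℕ) : ZMod m) := add_left_cancel h2
      rw [ZMod.natCast_eq_natCast_iff] at h3
      have hi1 := mem_Icc.1 hi
      have hi2 := mem_Icc.1 hi'
      exact hii (Nat.ModEq.eq_of_lt_of_lt h3 (by omega) (by omega))
  have hsub : (((univ : Finset (Fin (m * s))).powersetCard l).filter fun f => Ms p t j f) ⊆
      Uᶜ.powersetCard l := by
    intro f hf
    obtain ⟨h1, h2⟩ := mem_filter.1 hf
    refine mem_powersetCard.2 ⟨fun z hz => ?_, (mem_powersetCard.1 h1).2⟩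
    rw [mem_compl]
    intro hzU
    obtain ⟨i, hi, hz2⟩ := mem_biUnion.1 hzU
    have hi1 := mem_Icc.1 hi
    exact h2 i hi1.1 hi1.2 z hz (mem_filter.1 hz2).2
  refine (card_le_card hsub).trans ?_
  rw [card_powersetCard, card_compl, hU, Fintype.card_fin]

theorem exists_FR (l : ℕ) {m s : ℕ} [NeZero m] (p : Fin (m * s) → ZMod m)
    (hp : ∀ j : ZMod m, (univ.filter fun z => p z = j).card = s) :
    ∃ a : ZMod m, m * (FR l p a).card ≤
      (m * s).choose l + ∑ t ∈ Ico 1 m, m * (m * s - t * s).choose l := by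
  classical
  have hm : 0 < m := Nat.pos_of_ne_zero (NeZero.ne m)
  let B : ℕ → Finset (Finset (Fin (m * s))) := fun t =>
    (univ.powersetCard l).filter fun f => ∃ j, Ms p t j f
  have hFR : ∀ a : ZMod m, (FR l p a).card ≤
      ∑ t ∈ range m, ((B t).filter fun f => ∑ z ∈ f, p z - ((t : ℕ) : ZMod m) = a).card := by
    intro a
    refine le_trans (card_le_card ?_) card_biUnion_le
    intro f hf
    obtain ⟨h1, t, ht, j, h2, h3⟩ := mem_FR' hf
    refine mem_biUnion.2 ⟨t, mem_range.2 ht, mem_filter.2 ⟨mem_filter.2 ⟨h1, j, h3⟩, ?_⟩⟩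
    rw [h2, add_sub_cancel_right]
  have hB : ∀ t, ∑ a : ZMod m,
      ((B t).filter fun f => ∑ z ∈ f, p z - ((t : ℕ) : ZMod m) = a).card = (B t).card := by
    intro t
    exact (card_eq_sum_card_fiberwise fun f _ => mem_coe.2 (mem_univ _)).symm
  have hB0 : (B 0).card ≤ (m * s).choose l := by
    refine (card_filter_le _ _).trans ?_
    rw [card_powersetCard, card_univ, Fintype.card_fin]
  have hBt : ∀ t < m, (B t).card ≤ m * (m * s - t * s).choose l := by
    intro t ht
    have h1 : B t ⊆ (univ : Finset (ZMod m)).biUnion fun j =>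
        (univ.powersetCard l).filter fun f => Ms p t j f := by
      intro f hf
      obtain ⟨h1, j, hj⟩ := mem_filter.1 hf
      exact mem_biUnion.2 ⟨j, mem_univ _, mem_filter.2 ⟨h1, hj⟩⟩
    refine (card_le_card h1).trans (card_biUnion_le.trans ?_)
    refine (sum_le_sum fun j _ => card_Ms l p hp ht j).trans ?_
    rw [sum_const, smul_eq_mul, card_univ, ZMod.card]
  have hsum : ∑ a : ZMod m, (FR l p a).card ≤
      (m * s).choose l + ∑ t ∈ Ico 1 m, m * (m * s - t * s).choose l := by
    refine (sum_le_sum fun a _ => hFR a).trans ?_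
    rw [sum_comm, sum_congr rfl fun t _ => hB t, range_eq_Ico, sum_eq_sum_Ico_succ_bot hm]
    refine Nat.add_le_add hB0 (sum_le_sum fun t ht => hBt t (mem_Ico.1 ht).2)
  obtain ⟨a, -, ha⟩ := exists_le_of_sum_le (s := (univ : Finset (ZMod m)))
    (f := fun a => m * (FR l p a).card)
    (g := fun _ => (m * s).choose l + ∑ t ∈ Ico 1 m, m * (m * s - t * s).choose l)
    univ_nonempty (by
      rw [← mul_sum, sum_const, smul_eq_mul, card_univ, ZMod.card]
      exact Nat.mul_le_mul_left _ hsum)
  exact ⟨a, ha⟩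

end Pool.Agent.Work.MP_0ea01d_co.TB
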