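import Pool.Agent.Work.MP_0ea01d_co.TB.Defs

/-!
# Module FRDefs (M). The Frankl-Roedl covering.

`p : Fin N → ZMod m` is a partition in `m` parts. `FR l p a` is the set of the `l`-sets `f` for which
there are `t < m` and `j : ZMod m` with `∑ z ∈ f, p z = a + t` and no `z ∈ f` with `p z = j + i`,
`1 ≤ i ≤ t`. `GFR l p a` is its complement in the `l`-sets.

`free_GFR`: `card` clear. `free`: let `Q` be an `(l+1)`-set, `s = ∑ z ∈ Q, p z`. There is `t < m` and
`z ∈ Q` with `p z = s - a - t` (take any `z ∈ Q` and `t` = the value (`ZMod.val`) of `s - a - p z`).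
Take the least such `t` (`Nat.find`) and its `z`; put `f = Q.erase z`, `j = p z = s - a - t`. Then
`∑ f = s - p z = a + t`, and for `1 ≤ i ≤ t` no `z' ∈ Q` has `p z' = j + i = s - a - (t - i)`, by
minimality of `t` (`t - i < t`). So `f ∈ FR l p a`, i.e. `Q.erase z ∉ GFR l p a`.
-/

set_option autoImplicit false

namespace Pool.Agent.Work.MP_0ea01d_co.TB

open Finset

open Classical in
/-- The covering. -/
noncomputable def FR (l : ℕ) {N m : ℕ} (p : Fin N → ZMod m) (a : ZMod m) :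
    Finset (Finset (Fin N)) :=
  (univ.powersetCard l).filter fun f => ∃ t < m, ∃ j : ZMod m, ∑ z ∈ f, p z = a + (t : ℕ) ∧
    ∀ i : ℕ, 1 ≤ i → i ≤ t → ∀ z ∈ f, p z ≠ j + (i : ℕ)

/-- The complement. -/
noncomputable def GFR (l : ℕ) {N m : ℕ} (p : Fin N → ZMod m) (a : ZMod m) :
    Finset (Finset (Fin N)) :=
  (univ.powersetCard l) \ FR l p a

private theorem mf {α : Type} {s : Finset α} {p : α → Prop} {inst : DecidablePred p} {a : α} :
    a ∈ @Finset.filter _ p inst s ↔ a ∈ s ∧ p a := mem_filter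

theorem free_GFR (l : ℕ) {N m : ℕ} [NeZero m] (p : Fin N → ZMod m) (a : ZMod m) :
    Free l (GFR l p a) := by
  classical
  refine ⟨?_, ?_⟩
  · intro ψ hψ
    exact (mem_powersetCard.1 (mem_sdiff.1 hψ).1).2
  · intro Q hQ
    have hne : Q.Nonempty := card_pos.1 (by omega)
    obtain ⟨z0, hz0⟩ := hne
    obtain ⟨s, hs⟩ : ∃ s, s = ∑ z ∈ Q, p z := ⟨_, rfl⟩
    have hex : ∃ t : ℕ, ∃ z ∈ Q, p z = s - a - (t : ℕ) := by
      refine ⟨(s - a - p z0).val, z0, hz0, ?_⟩
      rw [ZMod.natCast_zmod_val]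
      ring
    have hlt : Nat.find hex < m := by
      refine lt_of_le_of_lt (Nat.find_min' hex (m := (s - a - p z0).val) ⟨z0, hz0, ?_⟩)
        (ZMod.val_lt _)
      rw [ZMod.natCast_zmod_val]
      ring
    obtain ⟨z, hz, hpz⟩ := Nat.find_spec hex
    refine ⟨z, hz, ?_⟩
    intro hcon
    refine (mem_sdiff.1 hcon).2 ?_
    unfold FR
    refine mf.2 ⟨(mem_sdiff.1 hcon).1, Nat.find hex, hlt, p z, ?_, ?_⟩
    · have h1 := add_sum_erase Q p hz
      rw [← hs, hpz] at h1
      rw [← sub_eq_zero] at h1 ⊢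
      rw [← h1]
      ring
    · intro i hi1 hi2 z' hz' heq
      refine Nat.find_min hex (m := Nat.find hex - i) (by omega)
        ⟨z', mem_of_mem_erase hz', ?_⟩
      rw [heq, hpz, Nat.cast_sub hi2]
      ring

end Pool.Agent.Work.MP_0ea01d_co.TB
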