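import Pool.Agent.Work.MP_0ea01d_co.TB.FRCount
import Pool.Agent.Work.MP_0ea01d_co.TB.ExLim

/-!
# Module FRDens (M). The lower bound for the Turan density.

Proof. Take `N = m * s`, `p z = (z : ℕ)` as an element of `ZMod m`, or through the equivalence
`Fin (m * s) ≃ Fin m × Fin s` (`finProdFinEquiv`); every part has `s` points. By `exists_FR` and
`free_GFR`, `ex l (m s) ≥ (GFR ..).card = (m s).choose l - (FR ..).card`, so
`m * ((m s).choose l - ex l (m s)) ≤ (m s).choose l + ∑ t ∈ Ico 1 m, m * ((m - t) s).choose l`.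
For `0 ≤ t ≤ m`: `((m - t) s).choose l ≤ ((m - t)/m) ^ l * (m s).choose l`
(termwise: `((m-t) s - i) / (m s - i) ≤ (m - t)/m`; or `Nat.descFactorial`; or use the landed
`choose_ratio_up` in `Pool.Agent.Work.MP_0ea01d_co.ManyAsym` with an extra `δ`). Divide by
`m * (m s).choose l` and let `s → ∞` (the sequence `ex l n / n.choose l` along `n = m s`,
`m ≥ 1`, tends to `t`).
-/

set_option autoImplicit false

namespace Pool.Agent.Work.MP_0ea01d_co.TB

open Finset Filter Topology

private theorem desc_le {b N : ℕ} (h : b ≤ N) (l : ℕ) :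
    b.descFactorial l * N ^ l ≤ b ^ l * N.descFactorial l := by
  induction l with
  | zero => simp
  | succ l ih =>
    rw [Nat.descFactorial_succ, Nat.descFactorial_succ, pow_succ, pow_succ]
    have h1 : (b - l) * N ≤ b * (N - l) := by
      rcases Nat.lt_or_ge b l with h2 | h2
      · rw [Nat.sub_eq_zero_of_le h2.le]; simp
      · obtain ⟨u, rfl⟩ := Nat.exists_eq_add_of_le h2
        obtain ⟨v, rfl⟩ := Nat.exists_eq_add_of_le h
        have e1 : l + u - l = u := by omega
        have e2 : l + u + v - l = u + v := by omega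
        rw [e1, e2]
        nlinarith
    calc (b - l) * b.descFactorial l * (N ^ l * N)
        = ((b - l) * N) * (b.descFactorial l * N ^ l) := by ring
      _ ≤ (b * (N - l)) * (b ^ l * N.descFactorial l) := Nat.mul_le_mul h1 ih
      _ = b ^ l * b * ((N - l) * N.descFactorial l) := by ring

private theorem choose_le_pow {b N : ℕ} (h : b ≤ N) (hN : 0 < N) (l : ℕ) :
    (b.choose l : ℝ) ≤ ((b : ℝ) / N) ^ l * N.choose l := by
  have h1 : (b.descFactorial l : ℝ) * (N : ℝ) ^ l ≤ (b : ℝ) ^ l * N.descFactorial l := by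
    exact_mod_cast desc_le h l
  rw [Nat.descFactorial_eq_factorial_mul_choose, Nat.descFactorial_eq_factorial_mul_choose] at h1
  push_cast at h1
  have h2 : (0 : ℝ) < l.factorial := by exact_mod_cast l.factorial_pos
  have h3 : (0 : ℝ) < (N : ℝ) ^ l := by
    have : (0 : ℝ) < N := by exact_mod_cast hN
    positivity
  rw [div_pow, div_mul_eq_mul_div, le_div_iff₀ h3]
  have h4 : (l.factorial : ℝ) * (b.choose l * (N : ℝ) ^ l) ≤
      l.factorial * ((b : ℝ) ^ l * N.choose l) := by linarith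
  exact le_of_mul_le_mul_left h4 h2

private theorem FR_sub (l : ℕ) {N m : ℕ} (p : Fin N → ZMod m) (a : ZMod m) :
    FR l p a ⊆ (univ : Finset (Fin N)).powersetCard l := by
  intro f hf
  simp only [FR, mem_filter] at hf
  exact hf.1

private theorem ineq_nat {l n s : ℕ} :
    (n + 1) * ((n + 1) * s).choose l ≤ (n + 1) * ex l ((n + 1) * s) +
      (((n + 1) * s).choose l +
        ∑ t ∈ Ico 1 (n + 1), (n + 1) * ((n + 1) * s - t * s).choose l) := by
  obtain ⟨a, ha⟩ := exists_FR (m := n + 1) (s := s) l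
    (fun z => ((finProdFinEquiv.symm z).1 : Fin (n + 1))) (by
      intro j
      have e : (univ.filter fun z : Fin ((n + 1) * s) =>
          ((finProdFinEquiv.symm z).1 : Fin (n + 1)) = (j : Fin (n + 1))) =
          (univ : Finset (Fin s)).map ⟨fun b => finProdFinEquiv ((j : Fin (n + 1)), b), by
            intro b b' h
            have := finProdFinEquiv.injective h
            exact (Prod.mk.inj this).2⟩ := by
        ext z
        simp only [mem_filter, mem_univ, true_and, Finset.mem_map, Function.Embedding.coeFn_mk]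
        constructor
        · intro h
          refine ⟨(finProdFinEquiv.symm z).2, ?_⟩
          rw [← h]
          exact finProdFinEquiv.apply_symm_apply z
        · rintro ⟨b, rfl⟩
          rw [finProdFinEquiv.symm_apply_apply]
      refine Eq.trans (congrArg Finset.card e) ?_
      rw [card_map, card_univ, Fintype.card_fin])
  have h1 := le_ex (free_GFR l (fun z : Fin ((n + 1) * s) =>
    (((finProdFinEquiv.symm z).1 : Fin (n + 1)) : ZMod (n + 1))) a)
  have hsub : FR l (fun z : Fin ((n + 1) * s) =>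
    (((finProdFinEquiv.symm z).1 : Fin (n + 1)) : ZMod (n + 1))) a ⊆ univ.powersetCard l := by
    exact FR_sub l _ a
  unfold GFR at h1
  rw [card_sdiff_of_subset hsub, card_powersetCard, card_univ, Fintype.card_fin] at h1
  have h2 : ((n + 1) * s).choose l ≤ ex l ((n + 1) * s) + (FR l (fun z : Fin ((n + 1) * s) =>
    (((finProdFinEquiv.symm z).1 : Fin (n + 1)) : ZMod (n + 1))) a).card := by omega
  calc (n + 1) * ((n + 1) * s).choose l ≤ (n + 1) * (ex l ((n + 1) * s) +
        (FR l (fun z : Fin ((n + 1) * s) =>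
          (((finProdFinEquiv.symm z).1 : Fin (n + 1)) : ZMod (n + 1))) a).card) :=
        Nat.mul_le_mul_left _ h2
    _ = (n + 1) * ex l ((n + 1) * s) + (n + 1) * (FR l (fun z : Fin ((n + 1) * s) =>
          (((finProdFinEquiv.symm z).1 : Fin (n + 1)) : ZMod (n + 1))) a).card := by ring
    _ ≤ _ := Nat.add_le_add_left ha _

theorem fr_dens {l m : ℕ} (hl : 1 ≤ l) (hm : 1 ≤ m) {t : ℝ}
    (ht : Tendsto (fun n : ℕ => (ex l n : ℝ) / n.choose l) atTop (𝓝 t)) :
    1 - t ≤ 1 / m + ∑ k ∈ Ico 1 m, (1 - (k : ℝ) / m) ^ l := by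
  obtain ⟨n, rfl⟩ : ∃ n, m = n + 1 := ⟨m - 1, by omega⟩
  have hlim : Tendsto (fun s : ℕ => (ex l ((n + 1) * s) : ℝ) / ((n + 1) * s).choose l) atTop
      (𝓝 t) := by
    refine ht.comp (tendsto_atTop_mono (fun s => ?_) tendsto_id)
    exact Nat.le_mul_of_pos_left s (by omega)
  have key : ∀ᶠ s : ℕ in atTop, 1 - (1 / ((n + 1 : ℕ) : ℝ) +
      ∑ k ∈ Ico 1 (n + 1), (1 - (k : ℝ) / ((n + 1 : ℕ) : ℝ)) ^ l) ≤
      (ex l ((n + 1) * s) : ℝ) / ((n + 1) * s).choose l := by
    filter_upwards [eventually_ge_atTop (l + 1)] with s hs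
    have hNs : l + 1 ≤ (n + 1) * s := hs.trans (Nat.le_mul_of_pos_left s (by omega))
    have hD : (0 : ℝ) < (((n + 1) * s).choose l : ℝ) := by
      exact_mod_cast Nat.choose_pos (by omega)
    have hm0 : (0 : ℝ) < ((n + 1 : ℕ) : ℝ) := by positivity
    have h1 : ((n + 1 : ℕ) : ℝ) * (((n + 1) * s).choose l : ℝ) ≤
        ((n + 1 : ℕ) : ℝ) * (ex l ((n + 1) * s) : ℝ) + ((((n + 1) * s).choose l : ℝ) +
          ∑ k ∈ Ico 1 (n + 1), ((n + 1 : ℕ) : ℝ) * (((n + 1) * s - k * s).choose l : ℝ)) := by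
      exact_mod_cast ineq_nat (l := l) (n := n) (s := s)
    have h2 : ∀ k ∈ Ico 1 (n + 1), ((((n + 1) * s - k * s).choose l : ℕ) : ℝ) ≤
        (1 - (k : ℝ) / ((n + 1 : ℕ) : ℝ)) ^ l * (((n + 1) * s).choose l : ℝ) := by
      intro k hk
      rw [mem_Ico] at hk
      have h3 := choose_le_pow (b := (n + 1) * s - k * s) (N := (n + 1) * s) (Nat.sub_le _ _)
        (by omega) l
      refine h3.trans (le_of_eq ?_)
      congr 2
      have h4 : k * s ≤ (n + 1) * s := Nat.mul_le_mul_right s (by omega)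
      have hs0 : (0 : ℝ) < s := by exact_mod_cast (by omega : 0 < s)
      rw [Nat.cast_sub h4, Nat.cast_mul, Nat.cast_mul, div_eq_iff (by positivity)]
      field_simp
    have h5 : ∑ k ∈ Ico 1 (n + 1), ((n + 1 : ℕ) : ℝ) * (((n + 1) * s - k * s).choose l : ℝ) ≤
        ((n + 1 : ℕ) : ℝ) * ((∑ k ∈ Ico 1 (n + 1), (1 - (k : ℝ) / ((n + 1 : ℕ) : ℝ)) ^ l) *
          (((n + 1) * s).choose l : ℝ)) := by
      rw [sum_mul, mul_sum]
      exact sum_le_sum fun k hk => mul_le_mul_of_nonneg_left (h2 k hk) hm0.le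
    rw [le_div_iff₀ hD]
    have h6 : ((n + 1 : ℕ) : ℝ) * ((1 - (1 / ((n + 1 : ℕ) : ℝ) +
      ∑ k ∈ Ico 1 (n + 1), (1 - (k : ℝ) / ((n + 1 : ℕ) : ℝ)) ^ l)) *
        (((n + 1) * s).choose l : ℝ)) ≤ ((n + 1 : ℕ) : ℝ) * (ex l ((n + 1) * s) : ℝ) := by
      have h7 : ((n + 1 : ℕ) : ℝ) * ((1 - (1 / ((n + 1 : ℕ) : ℝ) +
        ∑ k ∈ Ico 1 (n + 1), (1 - (k : ℝ) / ((n + 1 : ℕ) : ℝ)) ^ l)) *
          (((n + 1) * s).choose l : ℝ)) = ((n + 1 : ℕ) : ℝ) * (((n + 1) * s).choose l : ℝ) -
          (((n + 1 : ℕ) : ℝ) * (1 / ((n + 1 : ℕ) : ℝ))) * (((n + 1) * s).choose l : ℝ) -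
          ((n + 1 : ℕ) : ℝ) * ((∑ k ∈ Ico 1 (n + 1), (1 - (k : ℝ) / ((n + 1 : ℕ) : ℝ)) ^ l) *
          (((n + 1) * s).choose l : ℝ)) := by ring
      rw [h7, mul_one_div_cancel hm0.ne']
      linarith
    exact le_of_mul_le_mul_left h6 hm0
  have := ge_of_tendsto hlim key
  linarith

end Pool.Agent.Work.MP_0ea01d_co.TB
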