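import Pool.Agent.Work.MP_0ea01d_co.TB.FRDens

/-!
# Module FRLog (M). Asymptotics in `l`.

Proof. Let `m = ⌊l / log l⌋` (`Nat.floor`), for large `l`: `m ≥ 1`, `m ≤ l / log l`,
`m > l / log l - 1`. Then `(1 - k/m) ^ l ≤ exp (- k l / m) ≤ exp (- k log l) = (1/l) ^ k` for
`1 ≤ k < m` (`Real.one_sub_le_exp_neg`, base `≥ 0`; `l / m ≥ log l`), so the sum is at most
`∑ k ≥ 1, (1/l)^k = 1/(l-1)`. By `fr_dens`, `1 - t + 1/(l-1) ≤ 1/m + 2/(l-1)`, and
`1/m < 1/(l/log l - 1) = (log l / l) / (1 - log l / l)`. As `log l / l → 0` and `(1/(l-1)) / (log l / l) → 0`,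
the right side is `< (1 + δ) log l / l` for all `l ≥ l₀(δ)`.
-/

set_option autoImplicit false

namespace Pool.Agent.Work.MP_0ea01d_co.TB

open Finset Filter Topology

private theorem geo_le {l : ℕ} (hl : 2 ≤ l) {m : ℕ} (hm : 1 ≤ m) :
    ∑ k ∈ Ico 1 m, (1 / (l : ℝ)) ^ k ≤ 1 / ((l : ℝ) - 1) := by
  have hl' : (2 : ℝ) ≤ l := by exact_mod_cast hl
  have h0 : (0 : ℝ) < l := by linarith
  have h1 : 1 / (l : ℝ) ≠ 1 := by
    rw [Ne, div_eq_one_iff_eq (ne_of_gt h0)]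
    intro h
    linarith
  rw [geom_sum_Ico h1 hm, pow_one]
  have h2 : (0 : ℝ) ≤ (1 / (l : ℝ)) ^ m := by positivity
  have h3 : ((1 / (l : ℝ)) ^ m - 1 / (l : ℝ)) / (1 / (l : ℝ) - 1) =
      (1 - l * (1 / (l : ℝ)) ^ m) / ((l : ℝ) - 1) := by
    have h4 : (l : ℝ) - 1 ≠ 0 := by
      intro h
      linarith
    have h5 : 1 / (l : ℝ) - 1 ≠ 0 := sub_ne_zero.2 h1
    rw [div_eq_div_iff h5 h4]
    field_simp
    ring
  rw [h3]
  apply div_le_div_of_nonneg_right _ (by linarith)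
  nlinarith

private theorem term_le {l m k : ℕ} (hl : 2 ≤ l) (hm : (m : ℝ) * Real.log l ≤ l) (hk : k < m) :
    (1 - (k : ℝ) / m) ^ l ≤ (1 / (l : ℝ)) ^ k := by
  have hl0 : (0 : ℝ) < l := by
    have : 0 < l := by omega
    exact_mod_cast this
  have hm0 : (0 : ℝ) < m := by
    have : 0 < m := by omega
    exact_mod_cast this
  have hkm : (k : ℝ) ≤ m := by exact_mod_cast hk.le
  have h1 : 0 ≤ 1 - (k : ℝ) / m := by
    rw [sub_nonneg, div_le_one hm0]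
    exact hkm
  have h2 : (1 - (k : ℝ) / m) ^ l ≤ (Real.exp (-((k : ℝ) / m))) ^ l :=
    pow_le_pow_left₀ h1 (Real.one_sub_le_exp_neg _) _
  have h3 : (1 / (l : ℝ)) ^ k = Real.exp (-(k * Real.log l)) := by
    rw [Real.exp_neg, mul_comm, Real.exp_mul, Real.exp_log hl0, Real.rpow_natCast, one_div,
      inv_pow]
  rw [← Real.exp_nat_mul] at h2
  rw [h3]
  refine h2.trans (Real.exp_le_exp.2 ?_)
  have h4 : (k : ℝ) * Real.log l ≤ l * ((k : ℝ) / m) := by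
    rw [← mul_div_assoc, le_div_iff₀ hm0]
    have h5 : (0 : ℝ) ≤ k := Nat.cast_nonneg k
    nlinarith
  linarith

theorem fr_log {δ : ℝ} (hδ : 0 < δ) : ∃ l₀ : ℕ, ∀ l : ℕ, l₀ ≤ l → ∀ t : ℝ,
    Tendsto (fun n : ℕ => (ex l n : ℝ) / n.choose l) atTop (𝓝 t) →
      1 - t + 1 / ((l : ℝ) - 1) < (1 + δ) * (Real.log l / l) := by
  have h1 : Tendsto (fun l : ℕ => Real.log l / l) atTop (𝓝 0) :=
    (Real.isLittleO_log_id_atTop.tendsto_div_nhds_zero).comp tendsto_natCast_atTop_atTop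
  have h2 : Tendsto (fun l : ℕ => Real.log l) atTop atTop :=
    Real.tendsto_log_atTop.comp tendsto_natCast_atTop_atTop
  have h3 : Tendsto (fun l : ℕ => 1 / (1 - Real.log l / l) + 4 * (Real.log l)⁻¹) atTop
      (𝓝 (1 / (1 - 0) + 4 * 0)) := by
    refine Tendsto.add ?_ ((tendsto_inv_atTop_zero.comp h2).const_mul 4)
    exact tendsto_const_nhds.div (tendsto_const_nhds.sub h1) (by norm_num)
  have ev : ∀ᶠ l : ℕ in atTop, 1 / (1 - Real.log l / l) + 4 * (Real.log l)⁻¹ < 1 + δ ∧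
      Real.log l / l < 1 / 2 ∧ 1 ≤ Real.log l ∧ 2 ≤ l := by
    refine (h3.eventually_lt_const (by norm_num; exact hδ)).and
      ((h1.eventually_lt_const (by norm_num)).and ((h2.eventually_ge_atTop 1).and
        (eventually_ge_atTop 2)))
  obtain ⟨l₀, hl₀⟩ := eventually_atTop.1 ev
  refine ⟨l₀, fun l hl t ht => ?_⟩
  obtain ⟨g1, g2, g3, g4⟩ := hl₀ l hl
  have hl2 : (2 : ℝ) ≤ l := by exact_mod_cast g4
  have hl0 : (0 : ℝ) < l := by linarith
  have hlog : 0 < Real.log l := by linarith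
  obtain ⟨y, hy⟩ : ∃ y, y = Real.log l / l := ⟨_, rfl⟩
  obtain ⟨x, hx⟩ : ∃ x, x = (l : ℝ) / Real.log l := ⟨_, rfl⟩
  have hy0 : 0 < y := by rw [hy]; positivity
  have hxy : x * y = 1 := by
    rw [hx, hy]
    field_simp
  rw [← hy] at g1 g2 ⊢
  have hx2 : 2 < x := by
    by_contra hc
    push Not at hc
    nlinarith
  -- the number of parts
  have hx0 : 0 ≤ x := by linarith
  have hm1 : (⌊x⌋₊ : ℝ) ≤ x := Nat.floor_le hx0
  have hm2 : x - 1 < ⌊x⌋₊ := Nat.sub_one_lt_floor x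
  obtain ⟨m, hm⟩ : ∃ m, m = ⌊x⌋₊ := ⟨_, rfl⟩
  rw [← hm] at hm1 hm2
  have hm0 : (0 : ℝ) < m := by linarith
  have hmpos : 1 ≤ m := by
    have : 0 < m := by exact_mod_cast hm0
    exact this
  have hml : (m : ℝ) * Real.log l ≤ l := by
    rw [hx, le_div_iff₀ hlog] at hm1
    exact hm1
  have hsum : ∑ k ∈ Ico 1 m, (1 - (k : ℝ) / m) ^ l ≤ 1 / ((l : ℝ) - 1) :=
    (sum_le_sum fun k hk => term_le g4 hml (mem_Ico.1 hk).2).trans (geo_le g4 hmpos)
  have hd := fr_dens (l := l) (m := m) (by omega) hmpos ht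
  have hl1 : (0 : ℝ) < (l : ℝ) - 1 := by linarith
  have k1 : 1 / (m : ℝ) < 1 / (x - 1) := one_div_lt_one_div_of_lt (by linarith) hm2
  have k2 : 1 / (x - 1) = y * (1 / (1 - y)) := by
    have h5 : x - 1 ≠ 0 := by
      intro h
      linarith
    have h6 : 1 - y ≠ 0 := by
      intro h
      linarith
    rw [mul_one_div, div_eq_div_iff h5 h6]
    linear_combination -hxy
  have k3 : 2 / ((l : ℝ) - 1) ≤ y * (4 * (Real.log l)⁻¹) := by
    have h5 : y * (4 * (Real.log l)⁻¹) = 4 / l := by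
      rw [hy]
      field_simp
    rw [h5, div_le_div_iff₀ hl1 hl0]
    linarith
  have k4 : 2 / ((l : ℝ) - 1) = 1 / ((l : ℝ) - 1) + 1 / ((l : ℝ) - 1) := by ring
  have k5 : y * (1 / (1 - y) + 4 * (Real.log l)⁻¹) < y * (1 + δ) := mul_lt_mul_of_pos_left g1 hy0
  rw [mul_add] at k5
  linarith

end Pool.Agent.Work.MP_0ea01d_co.TB
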