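import Pool.Agent.Work.MP_0ea01d_co.TB.MainB
import Pool.Agent.Work.MP_0ea01d_co.TB.FRLog

/-!
# Module Final (S). The theorem.

Proof. First part: `ex_tendsto` and `main_b`. Second part: given `δ`, take `l₀ ≥ 3` from `fr_log`; for
`l ≥ l₀` take `t` from `ex_tendsto l`, and `main_b` with
`ε = (1 + δ) * (log l / l) - (1 - t + 1/(l-1)) > 0`.
-/

set_option autoImplicit false

namespace Pool.Agent.Work.MP_0ea01d_co.TB

open Finset Filter Topology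

theorem final :
    (∀ l : ℕ, 3 ≤ l → ∃ t : ℝ,
      Tendsto (fun n : ℕ => (ex l n : ℝ) / n.choose l) atTop (𝓝 t) ∧
      ∀ ε : ℝ, 0 < ε → ∀ᶠ n : ℕ in atTop, ∀ m : ℕ,
        (1 - t + 1 / ((l : ℝ) - 1) + ε) * n.choose l ≤ m → m ≤ n.choose l → m ∈ S n l) ∧
    (∀ δ : ℝ, 0 < δ → ∃ l₀ : ℕ, ∀ l : ℕ, l₀ ≤ l → ∀ᶠ n : ℕ in atTop, ∀ m : ℕ,
        (1 + δ) * (Real.log l / l) * n.choose l ≤ m → m ≤ n.choose l → m ∈ S n l) := by
  refine ⟨?_, ?_⟩
  · intro l hl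
    obtain ⟨t, _, ht⟩ := ex_tendsto l
    exact ⟨t, ht, fun ε hε => main_b hl ht hε⟩
  · intro δ hδ
    obtain ⟨l₀, h₀⟩ := fr_log hδ
    refine ⟨max l₀ 3, fun l hl => ?_⟩
    have hl3 : 3 ≤ l := le_trans (le_max_right _ _) hl
    have hl0 : l₀ ≤ l := le_trans (le_max_left _ _) hl
    obtain ⟨t, _, ht⟩ := ex_tendsto l
    have hlt := h₀ l hl0 t ht
    have hm := main_b hl3 ht (ε := (1 + δ) * (Real.log l / l) - (1 - t + 1 / ((l : ℝ) - 1)))
      (by linarith)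
    filter_upwards [hm] with n hn m h1 h2
    refine hn m ?_ h2
    have e : 1 - t + 1 / ((l : ℝ) - 1) +
        ((1 + δ) * (Real.log l / l) - (1 - t + 1 / ((l : ℝ) - 1)))
        = (1 + δ) * (Real.log l / l) := by ring
    rw [e]
    exact h1

end Pool.Agent.Work.MP_0ea01d_co.TB
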