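import Pool.Agent.Work.MP_0ea01d_co.TB.HMem

/-!
# Module GoodClq (S). The intended cliques.

Proof. `(lft P x).card = P.card = l + 1` (`card_lft`, `hB.card`). For `z ∈ lft P x`, `z = (v, x v)`
with `v ∈ P` (`mem_lft`), and `(lft P x).erase z = lft (P.erase v) x` (`lft_erase`); use `mem_HH`.
If `P.erase v ∉ G`: `InF` holds with `P` and `y = v`. If `P.erase v ∈ G`: `InH` holds: let `P' ∈ B`,
`y ≠ y' ∈ P'`, `P'.erase y ∉ G`, `P'.erase y' ∉ G`, `(P'.erase y).erase y' ⊆ P.erase v` and suppose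
`Lab P' x`. By `hu`, `P' = P`. Since `P.erase v ∈ G`, `v ≠ y` and `v ≠ y'`, so
`v ∈ (P.erase y).erase y' ⊆ P.erase v`, a contradiction.
-/

set_option autoImplicit false

namespace Pool.Agent.Work.MP_0ea01d_co.TB

open Finset

variable {V : Type} [DecidableEq V] [Fintype V] {q : ℕ} [NeZero q] {l : ℕ}

theorem lft_mem_cliq {G B : Finset (Finset V)} (hB : Tame l G B)
    (α : Finset V → ZMod q) {P : Finset V} (hP : P ∈ B) {x : V → ZMod q} (hx : Lab G α P x)
    (hu : ∀ P' ∈ B, Lab G α P' x → P' = P) : lft P x ∈ cliq l (HH G B α) := by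
  have hPc := hB.card P hP
  unfold cliq
  rw [mem_filter, mem_powersetCard]
  refine ⟨⟨subset_univ _, ?_⟩, ?_⟩
  · rw [card_lft, hPc]
  · rintro ⟨v, t⟩ hz
    rw [mem_lft] at hz
    obtain ⟨hv, ht⟩ := hz
    have ht' : t = x v := ht
    subst ht'
    have hv' : v ∈ P := hv
    rw [lft_erase, mem_HH]
    by_cases hG : P.erase v ∈ G
    · right
      refine ⟨hG, fun P' hP' y hy y' hy' hyy' h1 h2 hsub hl => ?_⟩
      have h3 := hu P' hP' hl
      rw [h3] at h1 h2 hsub
      have h4 : v ≠ y := by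
        rintro rfl
        exact h1 hG
      have h5 : v ≠ y' := by
        rintro rfl
        exact h2 hG
      have h6 : v ∈ (P.erase y).erase y' := mem_erase.2 ⟨h5, mem_erase.2 ⟨h4, hv'⟩⟩
      exact (mem_erase.1 (hsub h6)).1 rfl
    · left
      exact ⟨P, hP, v, hv', rfl, hG, hx⟩

end Pool.Agent.Work.MP_0ea01d_co.TB
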