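import Pool.Agent.Work.MP_0ea01d_co.TB.LiftA

/-!
# Module LiftB (S). A set all of whose one-point-deleted subsets are transversal is transversal.

Proof. Let `a, b ∈ Q` have the same first coordinate, `a ≠ b`. Since `Q.card = l + 1 ≥ 3` there is
`z ∈ Q` with `z ≠ a, b`; then `a, b ∈ Q.erase z = lft P x`, so (`mem_lft`) `a.2 = x a.1` and
`b.2 = x b.1`, hence `a = b`, a contradiction. So the first coordinate is injective on `Q`. Put
`P = Q.image Prod.fst` (so `P.card = Q.card`), and for `v ∈ P` let `x v` be the second coordinate of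
the unique point of `Q` over `v` (choice; for `v ∉ P` any value: `Q` is nonempty, take the second
coordinate of a point of `Q`). Then `Q = lft P x`.
-/

set_option autoImplicit false

namespace Pool.Agent.Work.MP_0ea01d_co.TB

open Finset

variable {V A : Type} [DecidableEq V] [DecidableEq A]

theorem exists_lft {l : ℕ} (hl : 2 ≤ l) (Q : Finset (V × A)) (hQ : Q.card = l + 1)
    (h : ∀ z ∈ Q, ∃ (P : Finset V) (x : V → A), Q.erase z = lft P x) :
    ∃ (P : Finset V) (x : V → A), P.card = l + 1 ∧ Q = lft P x := by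
  have hinj : ∀ a ∈ Q, ∀ b ∈ Q, a.1 = b.1 → a = b := by
    intro a ha b hb hab
    by_contra hne
    have h3 : 2 < Q.card := by omega
    obtain ⟨z, hz, hzn⟩ : ∃ z ∈ Q, z ∉ ({a, b} : Finset (V × A)) := by
      by_contra hcon
      push Not at hcon
      have h4 : Q ⊆ ({a, b} : Finset (V × A)) := fun z hz => hcon z hz
      have h5 := Finset.card_le_card h4
      have h6 := Finset.card_le_two (a := a) (b := b)
      omega
    rw [Finset.mem_insert, Finset.mem_singleton, not_or] at hzn
    obtain ⟨P, x, hPx⟩ := h z hz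
    have ha' : a ∈ Q.erase z := Finset.mem_erase.2 ⟨fun e => hzn.1 e.symm, ha⟩
    have hb' : b ∈ Q.erase z := Finset.mem_erase.2 ⟨fun e => hzn.2 e.symm, hb⟩
    rw [hPx, mem_lft] at ha' hb'
    apply hne
    apply Prod.ext hab
    rw [ha'.2, hb'.2, hab]
  have hne : Q.Nonempty := by
    rw [← Finset.card_pos]
    omega
  obtain ⟨q0, hq0⟩ := hne
  have hx : ∀ v : V, ∃ y : A, ∀ q ∈ Q, q.1 = v → q.2 = y := by
    intro v
    by_cases hv : ∃ q ∈ Q, q.1 = v
    · obtain ⟨q, hq, hqv⟩ := hv
      refine ⟨q.2, fun q' hq' h' => ?_⟩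
      rw [hinj q' hq' q hq (h'.trans hqv.symm)]
    · exact ⟨q0.2, fun q hq h' => absurd ⟨q, hq, h'⟩ hv⟩
  choose x hx using hx
  refine ⟨Q.image Prod.fst, x, ?_, ?_⟩
  · rw [Finset.card_image_of_injOn (fun a ha b hb hab => hinj a ha b hb hab), hQ]
  · ext ⟨v, y⟩
    rw [mem_lft, Finset.mem_image]
    constructor
    · intro hq
      exact ⟨⟨(v, y), hq, rfl⟩, hx v _ hq rfl⟩
    · rintro ⟨⟨q, hq, hqv⟩, hy⟩
      have h1 := hx v q hq hqv
      have h2 : q = (v, y) := Prod.ext hqv (h1.trans hy.symm)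
      rw [← h2]
      exact hq

end Pool.Agent.Work.MP_0ea01d_co.TB
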