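import Pool.Agent.Work.MP_0ea01d_co.TB.Defs

/-!
# Module LinA (S). One linear condition.

Proof. Fix `c0 ∈ C`. For `b : ZMod q` let `T b = {x | ∑ c ∈ C, x c = b}`. The map
`x ↦ x + Pi.single c0 (b - a)` (or `Function.update x c0 (x c0 + (b - a))`) is a bijection from `T a`
onto `T b`, because `∑ c ∈ C, (Pi.single c0 (b - a)) c = b - a` (`c0 ∈ C`). So all `T b` have the
same cardinality, and `∑ b, (T b).card = q ^ card V` (`card_eq_sum_card_fiberwise`), `Fintype.card
(ZMod q) = q` (`ZMod.card`).
-/

set_option autoImplicit false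

namespace Pool.Agent.Work.MP_0ea01d_co.TB

open Finset

variable {V : Type} [DecidableEq V] [Fintype V]

theorem card_lab_one {q : ℕ} [NeZero q] (C : Finset V) (hC : C.Nonempty) (a : ZMod q) :
    (univ.filter fun x : V → ZMod q => ∑ c ∈ C, x c = a).card * q = q ^ Fintype.card V := by
  obtain ⟨c0, hc0⟩ := hC
  have hsum : ∀ d : ZMod q, ∑ c ∈ C, (Pi.single c0 d : V → ZMod q) c = d := by
    intro d
    rw [Finset.sum_eq_single c0]
    · rw [Pi.single_eq_same]
    · intro b _ hb
      rw [Pi.single_eq_of_ne hb]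
    · intro h
      exact absurd hc0 h
  have hcard : ∀ b : ZMod q, (univ.filter fun x : V → ZMod q => ∑ c ∈ C, x c = b).card =
      (univ.filter fun x : V → ZMod q => ∑ c ∈ C, x c = a).card := by
    intro b
    refine Finset.card_bij' (fun x _ => x + Pi.single c0 (a - b))
      (fun x _ => x + Pi.single c0 (b - a)) ?_ ?_ ?_ ?_
    · intro x hx
      rw [Finset.mem_filter] at hx ⊢
      refine ⟨Finset.mem_univ _, ?_⟩
      simp only [Pi.add_apply, Finset.sum_add_distrib]
      rw [hx.2, hsum]
      ring
    · intro x hx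
      rw [Finset.mem_filter] at hx ⊢
      refine ⟨Finset.mem_univ _, ?_⟩
      simp only [Pi.add_apply, Finset.sum_add_distrib]
      rw [hx.2, hsum]
      ring
    · intro x _
      rw [add_assoc, ← Pi.single_add]
      simp
    · intro x _
      rw [add_assoc, ← Pi.single_add]
      simp
  have h1 := Finset.card_eq_sum_card_fiberwise (f := fun x : V → ZMod q => ∑ c ∈ C, x c)
    (s := Finset.univ) (t := Finset.univ) (fun x _ => Finset.mem_coe.2 (Finset.mem_univ _))
  rw [Finset.sum_congr rfl fun b _ => hcard b, Finset.sum_const, Finset.card_univ,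
    Finset.card_univ, ZMod.card, Fintype.card_fun, ZMod.card, smul_eq_mul] at h1
  rw [h1, mul_comm]

end Pool.Agent.Work.MP_0ea01d_co.TB
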