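import Pool.Agent.Work.MP_0ea01d_co.TB.Defs

/-!
# Module LinB (S/M). Two linear conditions.

Proof. Let `T = {x | ∑ C1 = a1 ∧ ∑ C2 = a2}`. If `C1 = C2` then `a1 ≠ a2` and `T` is empty. Otherwise,
after exchanging the two conditions if necessary, there is `i ∈ C1`, `i ∉ C2`; take `k ∈ C2` (so
`k ≠ i`). Consider the map `Φ : T × ZMod q × ZMod q → (V → ZMod q)`,
`Φ (x, s, t) = x + Pi.single k s + Pi.single i t`. It is injective: for `y = Φ (x, s, t)` one has
`∑ C2 y = a2 + s` (`k ∈ C2`, `i ∉ C2`), which determines `s`, and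
`∑ C1 y = a1 + (if k ∈ C1 then s else 0) + t`, which determines `t`, and then `x`. Hence
`T.card * q * q ≤ Fintype.card (V → ZMod q) = q ^ card V`.
-/

set_option autoImplicit false

namespace Pool.Agent.Work.MP_0ea01d_co.TB

open Finset

variable {V : Type} [DecidableEq V] [Fintype V]

private theorem linb_aux {q : ℕ} [NeZero q] (C1 C2 : Finset V) {i k : V} (hi1 : i ∈ C1)
    (hi2 : i ∉ C2) (hk : k ∈ C2) (a1 a2 : ZMod q) :
    (univ.filter fun x : V → ZMod q => ∑ c ∈ C1, x c = a1 ∧ ∑ c ∈ C2, x c = a2).card * q ^ 2 ≤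
      q ^ Fintype.card V := by
  have e2 : ∀ (x : V → ZMod q) (s t : ZMod q), (∑ c ∈ C2, x c = a2) →
      ∑ c ∈ C2, (x + Pi.single k s + Pi.single i t : V → ZMod q) c = a2 + s := by
    intro x s t hx
    simp only [Pi.add_apply, Finset.sum_add_distrib, hx]
    rw [Finset.sum_pi_single', Finset.sum_pi_single', if_pos hk, if_neg hi2, add_zero]
  have e1 : ∀ (x : V → ZMod q) (s t : ZMod q), (∑ c ∈ C1, x c = a1) →
      ∑ c ∈ C1, (x + Pi.single k s + Pi.single i t : V → ZMod q) c =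
        a1 + (if k ∈ C1 then s else 0) + t := by
    intro x s t hx
    simp only [Pi.add_apply, Finset.sum_add_distrib, hx]
    rw [Finset.sum_pi_single', Finset.sum_pi_single', if_pos hi1]
  have h1 : ((univ.filter fun x : V → ZMod q => ∑ c ∈ C1, x c = a1 ∧ ∑ c ∈ C2, x c = a2) ×ˢ
      (univ : Finset (ZMod q × ZMod q))).card ≤ (univ : Finset (V → ZMod q)).card := by
    refine Finset.card_le_card_of_injOn
      (fun p => (p.1 + Pi.single k p.2.1 + Pi.single i p.2.2 : V → ZMod q))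
      (fun p _ => mem_univ _) ?_
    rintro ⟨x, s, t⟩ hx ⟨x', s', t'⟩ hx' heq
    have hxx := (mem_filter.1 (mem_product.1 hx).1).2
    have hxx' := (mem_filter.1 (mem_product.1 hx').1).2
    have heq' : (x + Pi.single k s + Pi.single i t : V → ZMod q) =
      x' + Pi.single k s' + Pi.single i t' := heq
    have g1 : ∑ c ∈ C1, (x + Pi.single k s + Pi.single i t : V → ZMod q) c =
        ∑ c ∈ C1, (x' + Pi.single k s' + Pi.single i t' : V → ZMod q) c := by rw [heq']
    have g2 : ∑ c ∈ C2, (x + Pi.single k s + Pi.single i t : V → ZMod q) c =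
        ∑ c ∈ C2, (x' + Pi.single k s' + Pi.single i t' : V → ZMod q) c := by rw [heq']
    rw [e1 _ _ _ hxx.1, e1 _ _ _ hxx'.1] at g1
    rw [e2 _ _ _ hxx.2, e2 _ _ _ hxx'.2] at g2
    have hs : s = s' := add_left_cancel g2
    subst hs
    have ht : t = t' := add_left_cancel g1
    subst ht
    have hx0 : x = x' := add_right_cancel (add_right_cancel heq')
    rw [hx0]
  rw [card_product, card_univ, card_univ, Fintype.card_prod, ZMod.card, Fintype.card_fun,
    ZMod.card] at h1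
  rw [pow_two]
  exact h1

theorem card_lab_two {q : ℕ} [NeZero q] (C1 C2 : Finset V) (h1 : C1.Nonempty) (h2 : C2.Nonempty)
    (a1 a2 : ZMod q) (h : C1 ≠ C2 ∨ a1 ≠ a2) :
    (univ.filter fun x : V → ZMod q => ∑ c ∈ C1, x c = a1 ∧ ∑ c ∈ C2, x c = a2).card * q ^ 2 ≤
      q ^ Fintype.card V := by
  by_cases hC : C1 = C2
  · subst hC
    have ha : a1 ≠ a2 := h.resolve_left fun h3 => h3 rfl
    have h3 : (univ.filter fun x : V → ZMod q =>
        ∑ c ∈ C1, x c = a1 ∧ ∑ c ∈ C1, x c = a2) = ∅ := by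
      apply filter_eq_empty_iff.2
      rintro x - ⟨h4, h5⟩
      exact ha (h4.symm.trans h5)
    rw [h3, card_empty, zero_mul]
    exact Nat.zero_le _
  · by_cases h3 : C1 ⊆ C2
    · have h4 : ¬ C2 ⊆ C1 := fun h5 => hC (Subset.antisymm h3 h5)
      obtain ⟨i, hi2, hi1⟩ := not_subset.1 h4
      obtain ⟨k, hk⟩ := h1
      have h5 := linb_aux C2 C1 hi2 hi1 hk a2 a1
      have h6 : (univ.filter fun x : V → ZMod q => ∑ c ∈ C1, x c = a1 ∧ ∑ c ∈ C2, x c = a2) =
          (univ.filter fun x : V → ZMod q => ∑ c ∈ C2, x c = a2 ∧ ∑ c ∈ C1, x c = a1) :=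
        filter_congr fun x _ => and_comm
      rw [h6]
      exact h5
    · obtain ⟨i, hi1, hi2⟩ := not_subset.1 h3
      obtain ⟨k, hk⟩ := h2
      exact linb_aux C1 C2 hi1 hi2 hk a1 a2

end Pool.Agent.Work.MP_0ea01d_co.TB
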