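import Pool.Agent.Work.MP_0ea01d_co.TB.GoodClq
import Pool.Agent.Work.MP_0ea01d_co.TB.LinA
import Pool.Agent.Work.MP_0ea01d_co.TB.LinB

/-!
# Module LowA (M). For one covered edge, few label functions are bad.

Proof. Write `N = card V`. Let `ψ ∈ covd G B`: `ψ ∈ G` and `ψ ⊆ P` for some `P ∈ B`. Since
`ψ.card = l` (`hG.card`) and `P.card = l + 1`, `ψ = P.erase j` for some `j ∈ P`, and `j ∈ core G P`.
For `x : V → ZMod q` let `x' = Function.update x j (α P - ∑ c ∈ (core G P).erase j, x c)`; then
`Lab G α P x'` and `lft ψ x = lft ψ x'` (`lft_congr`, `j ∉ ψ`) `⊆ lft P x'`. If no `P' ∈ B`,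
`P' ≠ P` has `Lab G α P' x'`, then `lft P x' ∈ cliq l (HH G B α)` by `lft_mem_cliq`, so
`lft ψ x ∈ Gr l (cliq ..)` (`mem_Gr`, `card_lft`). Hence the set `Bad` of `x` with
`lft ψ x ∉ Gr ..` is contained in the union over `P' ∈ B`, `P' ≠ P` of
`{x | x' ∈ T P'}`, `T P' = {y | Lab G α P y ∧ Lab G α P' y}`. The map `x ↦ (x', x j)` is injective
(`x = Function.update x' j (x j)`), so `#{x | x' ∈ T P'} ≤ #(T P') * q`, and
`#(T P') * q ^ 2 ≤ q ^ N` (`card_lab_two`: the cores are nonempty by `hB.one`, `α P ≠ α P'` by `hα`).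
So `#Bad * q ≤ B.card * q ^ N`.
-/

set_option autoImplicit false

namespace Pool.Agent.Work.MP_0ea01d_co.TB

open Finset

variable {V : Type} [DecidableEq V] [Fintype V] {q : ℕ} [NeZero q] {l : ℕ}

theorem card_bad_le {G B : Finset (Finset V)} (hG : Free l G) (hB : Tame l G B)
    (α : Finset V → ZMod q) (hα : Set.InjOn α (B : Set (Finset V))) {ψ : Finset V}
    (hψ : ψ ∈ covd G B) :
    (univ.filter fun x : V → ZMod q => lft ψ x ∉ Gr l (cliq l (HH G B α))).card * q ≤
      B.card * q ^ Fintype.card V := by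
  classical
  unfold covd at hψ
  rw [mem_filter] at hψ
  obtain ⟨hψG, P, hP, hsub⟩ := hψ
  have hPc := hB.card P hP
  have hψc := hG.card ψ hψG
  -- the missing point
  obtain ⟨j, hjP, hjψ⟩ : ∃ j ∈ P, j ∉ ψ := by
    by_contra hcon
    push Not at hcon
    have h1 : P ⊆ ψ := fun v hv => hcon v hv
    have h2 := card_le_card h1
    omega
  have hψe : ψ = P.erase j := by
    refine eq_of_subset_of_card_le (fun v hv => mem_erase.2 ⟨?_, hsub hv⟩) ?_
    · rintro rfl
      exact hjψ hv
    · rw [card_erase_of_mem hjP]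
      omega
  have hjc : j ∈ core G P := by
    unfold core
    rw [mem_filter, ← hψe]
    exact ⟨hjP, hψG⟩
  obtain ⟨up, hup⟩ : ∃ up : (V → ZMod q) → V → ZMod q, ∀ x, up x =
      Function.update x j (α P - ∑ c ∈ (core G P).erase j, x c) := ⟨_, fun _ => rfl⟩
  have hupj : ∀ x v, v ≠ j → up x v = x v := by
    intro x v hv
    rw [hup, Function.update_of_ne hv]
  have hlab : ∀ x, Lab G α P (up x) := by
    intro x
    unfold Lab
    rw [← add_sum_erase _ _ hjc, hup, Function.update_self]
    have h1 : ∑ c ∈ (core G P).erase j,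
        Function.update x j (α P - ∑ c ∈ (core G P).erase j, x c) c =
        ∑ c ∈ (core G P).erase j, x c := by
      refine sum_congr rfl fun c hc => ?_
      rw [Function.update_of_ne (ne_of_mem_erase hc)]
    rw [h1]
    ring
  obtain ⟨T, hT⟩ : ∃ T : Finset V → Finset (V → ZMod q), ∀ P', T P' =
      univ.filter fun y : V → ZMod q => ∑ c ∈ core G P, y c = α P ∧
        ∑ c ∈ core G P', y c = α P' := ⟨_, fun _ => rfl⟩
  have hbad : (univ.filter fun x : V → ZMod q => lft ψ x ∉ Gr l (cliq l (HH G B α))) ⊆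
      (B.erase P).biUnion fun P' => univ.filter fun x => up x ∈ T P' := by
    intro x hx
    rw [mem_filter] at hx
    rw [mem_biUnion]
    by_contra hcon
    push Not at hcon
    apply hx.2
    have hu : ∀ P' ∈ B, Lab G α P' (up x) → P' = P := by
      intro P' hP' hl'
      by_contra hne
      apply hcon P' (mem_erase.2 ⟨hne, hP'⟩)
      rw [mem_filter, hT, mem_filter]
      exact ⟨mem_univ _, mem_univ _, hlab x, hl'⟩
    have h1 := lft_mem_cliq hB α hP (hlab x) hu
    rw [mem_Gr]
    refine ⟨_, h1, ?_, ?_⟩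
    · have h2 : lft ψ x = lft ψ (up x) := by
        refine lft_congr fun v hv => ?_
        rw [hupj]
        rintro rfl
        exact hjψ hv
      rw [h2, lft_subset]
      exact hsub
    · rw [card_lft, hψc]
  have hfib : ∀ P' : Finset V, (univ.filter fun x => up x ∈ T P').card ≤ (T P').card * q := by
    intro P'
    have h1 : (T P').card * q = (T P' ×ˢ (univ : Finset (ZMod q))).card := by
      rw [card_product, card_univ, ZMod.card]
    rw [h1]
    refine card_le_card_of_injOn (fun x => (up x, x j)) ?_ ?_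
    · intro x hx
      rw [mem_coe, mem_filter] at hx
      rw [mem_coe, mem_product]
      exact ⟨hx.2, mem_univ _⟩
    · intro x _ y _ hxy
      have h2 : up x = up y := congrArg Prod.fst hxy
      have h3 : x j = y j := congrArg Prod.snd hxy
      funext v
      by_cases hv : v = j
      · rw [hv, h3]
      · rw [← hupj x v hv, ← hupj y v hv, h2]
  have hne : ∀ P' ∈ B, (core G P').Nonempty := by
    intro P' hP'
    obtain ⟨c, hc, hcG⟩ := hB.one P' hP'
    refine ⟨c, ?_⟩
    unfold core
    exact mem_filter.2 ⟨hc, hcG⟩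
  have htwo : ∀ P' ∈ B.erase P, (T P').card * q ^ 2 ≤ q ^ Fintype.card V := by
    intro P' hP'
    rw [hT]
    refine card_lab_two _ _ (hne P hP) (hne P' (mem_of_mem_erase hP')) _ _ (Or.inr ?_)
    intro h
    exact (ne_of_mem_erase hP') (hα hP (mem_of_mem_erase hP') h).symm
  calc (univ.filter fun x : V → ZMod q => lft ψ x ∉ Gr l (cliq l (HH G B α))).card * q
      ≤ (∑ P' ∈ B.erase P, (T P').card * q) * q := by
        refine Nat.mul_le_mul_right q ?_
        refine (card_le_card hbad).trans (card_biUnion_le.trans ?_)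
        exact sum_le_sum fun P' _ => hfib P'
    _ = ∑ P' ∈ B.erase P, (T P').card * q ^ 2 := by
        rw [sum_mul]
        refine sum_congr rfl fun P' _ => ?_
        ring
    _ ≤ ∑ _P' ∈ B.erase P, q ^ Fintype.card V := sum_le_sum htwo
    _ = (B.erase P).card * q ^ Fintype.card V := by
        rw [sum_const, smul_eq_mul]
    _ ≤ B.card * q ^ Fintype.card V :=
        Nat.mul_le_mul_right _ (card_le_card (erase_subset _ _))

end Pool.Agent.Work.MP_0ea01d_co.TB
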