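import Pool.Agent.Work.MP_0ea01d_co.TB.OrdDefs

/-!
# Module OrdBad (M). Almost every `l`-set is a block minus one of its large points.

Proof. Let `ψ` be an `l`-set, `l ≥ 3`, `a < b` its two smallest members (`exists_two`), `s` the sum over
`ψ` minus `{a, b}`. There is `c ∈ ψ` above `b` (`l ≥ 3`), so by `exists_dvd` there is `k > b` with
`(N - 1 - b) ∣ s + k`. If `k ∉ ψ` then `P = insert k ψ` is in `OB l N` with the same two smallest
members (`two_insert`), `k ≠ a, b` and `ψ = P.erase k`; so `ψ` is not in the filtered set. If `ψ` is in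
the filtered set then `k ∈ ψ`, `k ≠ a, b`; put `τ = ψ.erase k`, an `(l-1)`-set with two smallest
members `a, b` (`two_erase`), and with `s' =` the sum over `τ` minus `{a,b}`, `s = s' + k`, so
`(N - 1 - b) ∣ s' + 2 k`. So the filtered set injects (`ψ ↦ (ψ.erase k, k)`) into the set of pairs
`(τ, k)` with `τ` an `(l-1)`-set with two smallest members `a < b`, `k > b` and
`M ∣ s' + 2 k`, `M = N - 1 - b`. For given `τ` there are at most `2` such `k`: all lie in
`b < k ≤ N - 1`, an interval of `M` integers; for two of them `M ∣ 2 (k - k')` and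
`|2 (k - k')| < 2 M`, so `2 (k - k') ∈ {0, M, -M}`; three solutions `k < k' < k''` would give
`2 (k'' - k) = 2 M`, impossible. So the filtered set has at most `2 * N.choose (l-1)` members
(`card_powersetCard`).
-/

set_option autoImplicit false

namespace Pool.Agent.Work.MP_0ea01d_co.TB

open Finset

private theorem two_sol {M s x y : ℕ} (hx : M ∣ s + 2 * x) (hy : M ∣ s + 2 * y) (hxy : x < y)
    (h : y - x < M) : 2 * (y - x) = M := by
  have h1 : M ∣ 2 * (y - x) := by
    have h2 := Nat.dvd_sub hy hx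
    have h3 : s + 2 * y - (s + 2 * x) = 2 * (y - x) := by omega
    rwa [h3] at h2
  obtain ⟨c, hc⟩ := h1
  rcases c with _ | _ | c
  · omega
  · omega
  · exfalso
    have : M * (c + 1 + 1) = M * c + 2 * M := by ring
    rw [this] at hc
    omega

private theorem erase3 {α : Type} [DecidableEq α] (P : Finset α) (a b k : α) :
    ((P.erase k).erase a).erase b = ((P.erase a).erase b).erase k := by
  ext x
  simp only [mem_erase]
  tauto

open Classical in
theorem card_bad_OB (l N : ℕ) (hl : 3 ≤ l) :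
    ((univ.powersetCard l : Finset (Finset (Fin N))).filter fun ψ =>
      ¬ ∃ P ∈ OB l N, ∃ a b, Two a b P ∧ ∃ k ∈ P, k ≠ a ∧ k ≠ b ∧ ψ = P.erase k).card ≤
      2 * N.choose (l - 1) := by
  classical
  set F := ((univ.powersetCard l : Finset (Finset (Fin N))).filter fun ψ =>
      ¬ ∃ P ∈ OB l N, ∃ a b, Two a b P ∧ ∃ k ∈ P, k ≠ a ∧ k ≠ b ∧ ψ = P.erase k) with hF
  have key : ∀ ψ ∈ F, ∃ τ : Finset (Fin N), ∃ a b k : Fin N, Two a b ψ ∧ b < k ∧ k ∈ ψ ∧
      (N - 1 - (b : ℕ)) ∣ ∑ j ∈ (ψ.erase a).erase b, (j : ℕ) + k ∧ τ = ψ.erase k := by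
    intro ψ hψ
    rw [hF, mem_filter, mem_powersetCard] at hψ
    obtain ⟨⟨-, hcard⟩, hbad⟩ := hψ
    obtain ⟨a, b, hab⟩ := exists_two (P := ψ) (by omega)
    have hne : ((ψ.erase a).erase b).Nonempty := by
      rw [← card_pos, card_erase_of_mem, card_erase_of_mem hab.1]
      · omega
      · rw [mem_erase]
        exact ⟨(ne_of_lt hab.2.2.1).symm, hab.2.1⟩
    obtain ⟨c, hc⟩ := hne
    rw [mem_erase, mem_erase] at hc
    have hbc : b < c := hab.2.2.2 c hc.2.2 hc.2.1 hc.1
    obtain ⟨k, hbk, hdvd⟩ := exists_dvd hbc (∑ j ∈ (ψ.erase a).erase b, (j : ℕ))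
    refine ⟨ψ.erase k, a, b, k, hab, hbk, ?_, hdvd, rfl⟩
    by_contra hk
    apply hbad
    have hka : k ≠ a := fun h => hk (h ▸ hab.1)
    have hkb : k ≠ b := fun h => hk (h ▸ hab.2.1)
    refine ⟨insert k ψ, ?_, a, b, two_insert hab hbk, k, mem_insert_self _ _, hka, hkb,
      (erase_insert hk).symm⟩
    unfold OB
    rw [mem_filter, mem_powersetCard]
    refine ⟨⟨subset_univ _, by rw [card_insert_of_notMem hk, hcard]⟩, a, b,
      two_insert hab hbk, ?_⟩
    have e : ((insert k ψ).erase a).erase b = insert k ((ψ.erase a).erase b) := by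
      ext x
      simp only [mem_erase, mem_insert]
      constructor
      · tauto
      · rintro (rfl | h)
        · exact ⟨hkb, hka, Or.inl rfl⟩
        · tauto
    have hk' : k ∉ (ψ.erase a).erase b := by
      rw [mem_erase, mem_erase]
      tauto
    rw [e, sum_insert hk', add_comm]
    exact hdvd
  choose! f hf using key
  have himg : F.image f ⊆ univ.powersetCard (l - 1) := by
    intro τ hτ
    rw [mem_image] at hτ
    obtain ⟨ψ, hψ, rfl⟩ := hτ
    obtain ⟨a, b, k, -, -, hk, -, he⟩ := hf ψ hψ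
    rw [hF, mem_filter, mem_powersetCard] at hψ
    rw [mem_powersetCard]
    refine ⟨subset_univ _, ?_⟩
    rw [he, card_erase_of_mem hk, hψ.1.2]
  have hfib : ∀ τ ∈ F.image f, (F.filter fun ψ => f ψ = τ).card ≤ 2 := by
    intro τ _
    by_contra hgt
    push Not at hgt
    obtain ⟨ψ₁, h1, ψ₂, h2, ψ₃, h3, h12, h13, h23⟩ := two_lt_card.1 hgt
    rw [mem_filter] at h1 h2 h3
    have hone : ∀ ψ, ψ ∈ F ∧ f ψ = τ → ∃ a b k : Fin N, Two a b τ ∧ b < k ∧ k ∉ τ ∧
        ψ = insert k τ ∧ (N - 1 - (b : ℕ)) ∣ ∑ j ∈ (τ.erase a).erase b, (j : ℕ) + 2 * k := by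
      rintro ψ ⟨hψ, rfl⟩
      obtain ⟨a, b, k, hab, hbk, hk, hd, he⟩ := hf ψ hψ
      have hka : k ≠ a := (ne_of_lt (hab.2.2.1.trans hbk)).symm
      have hkb : k ≠ b := (ne_of_lt hbk).symm
      refine ⟨a, b, k, ?_, hbk, ?_, ?_, ?_⟩
      · rw [he]
        exact two_erase hab hka hkb
      · rw [he]
        exact notMem_erase _ _
      · rw [he, insert_erase hk]
      · have hk' : k ∈ (ψ.erase a).erase b := by
          rw [mem_erase, mem_erase]
          exact ⟨hkb, hka, hk⟩
        rw [he, erase3]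
        have e := add_sum_erase ((ψ.erase a).erase b) (fun j : Fin N => (j : ℕ)) hk'
        have e2 : ∑ j ∈ ((ψ.erase a).erase b).erase k, (j : ℕ) + 2 * (k : ℕ) =
            ∑ j ∈ (ψ.erase a).erase b, (j : ℕ) + k := by
          rw [← e]
          ring
        rw [e2]
        exact hd
    obtain ⟨a1, b1, k1, t1, l1, n1, e1, d1⟩ := hone ψ₁ h1
    obtain ⟨a2, b2, k2, t2, l2, n2, e2, d2⟩ := hone ψ₂ h2
    obtain ⟨a3, b3, k3, t3, l3, n3, e3, d3⟩ := hone ψ₃ h3
    obtain ⟨rfl, rfl⟩ := two_unique t1 t2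
    obtain ⟨rfl, rfl⟩ := two_unique t1 t3
    have k12 : (k1 : ℕ) ≠ k2 := by
      intro h
      have : k1 = k2 := Fin.ext h
      exact h12 (by rw [e1, e2, this])
    have k13 : (k1 : ℕ) ≠ k3 := by
      intro h
      have : k1 = k3 := Fin.ext h
      exact h13 (by rw [e1, e3, this])
    have k23 : (k2 : ℕ) ≠ k3 := by
      intro h
      have : k2 = k3 := Fin.ext h
      exact h23 (by rw [e2, e3, this])
    have m1 : (b1 : ℕ) < k1 := l1
    have m2 : (b1 : ℕ) < k2 := l2
    have m3 : (b1 : ℕ) < k3 := l3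
    have u1 := k1.isLt
    have u2 := k2.isLt
    have u3 := k3.isLt
    have pair : ∀ x y : Fin N, (b1 : ℕ) < x → (b1 : ℕ) < y → (x : ℕ) < y →
        (N - 1 - (b1 : ℕ)) ∣ ∑ j ∈ (τ.erase a1).erase b1, (j : ℕ) + 2 * (x : ℕ) →
        (N - 1 - (b1 : ℕ)) ∣ ∑ j ∈ (τ.erase a1).erase b1, (j : ℕ) + 2 * (y : ℕ) →
        2 * ((y : ℕ) - x) = N - 1 - b1 := by
      intro x y hx hy hxy hdx hdy
      refine two_sol hdx hdy hxy ?_
      have := y.isLt
      omega
    rcases Nat.lt_or_gt_of_ne k12 with c12 | c12 <;>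
      rcases Nat.lt_or_gt_of_ne k13 with c13 | c13 <;>
      rcases Nat.lt_or_gt_of_ne k23 with c23 | c23
    · have p1 := pair k1 k2 m1 m2 c12 d1 d2
      have p2 := pair k1 k3 m1 m3 c13 d1 d3
      have p3 := pair k2 k3 m2 m3 c23 d2 d3
      omega
    · have p1 := pair k1 k2 m1 m2 c12 d1 d2
      have p2 := pair k1 k3 m1 m3 c13 d1 d3
      have p3 := pair k3 k2 m3 m2 c23 d3 d2
      omega
    · omega
    · have p1 := pair k1 k2 m1 m2 c12 d1 d2
      have p2 := pair k3 k1 m3 m1 c13 d3 d1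
      have p3 := pair k3 k2 m3 m2 c23 d3 d2
      omega
    · have p1 := pair k2 k1 m2 m1 c12 d2 d1
      have p2 := pair k1 k3 m1 m3 c13 d1 d3
      have p3 := pair k2 k3 m2 m3 c23 d2 d3
      omega
    · omega
    · have p1 := pair k2 k1 m2 m1 c12 d2 d1
      have p2 := pair k3 k1 m3 m1 c13 d3 d1
      have p3 := pair k2 k3 m2 m3 c23 d2 d3
      omega
    · have p1 := pair k2 k1 m2 m1 c12 d2 d1
      have p2 := pair k3 k1 m3 m1 c13 d3 d1
      have p3 := pair k3 k2 m3 m2 c23 d3 d2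
      omega
  calc F.card ≤ 2 * (F.image f).card := card_le_mul_card_image F 2 hfib
    _ ≤ 2 * N.choose (l - 1) := by
        refine Nat.mul_le_mul_left _ ((card_le_card himg).trans ?_)
        rw [card_powersetCard, card_univ, Fintype.card_fin]

end Pool.Agent.Work.MP_0ea01d_co.TB
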