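import Pool.Agent.Work.MP_0ea01d_co.TB.OrdDefs

/-!
# Module OrdCard (S/M). The ordered family is small.

Proof. For `P ∈ OB l N` let `a b` be its two smallest members; `P` minus `{a, b}` has `l - 1` members.
The map `(P, k) ↦ P.erase k` from the pairs with `P ∈ OB l N`, `k ∈ P`, `k ≠ a, b` to the `l`-subsets of
`Fin N` is injective: let `ψ = P.erase k = P'.erase k'`. By `two_erase`, `a, b` are the two smallest of
`ψ`, and so are `a', b'`; by `two_unique` `a = a'`, `b = b'`. The sum over `P` minus `{a,b}` is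
`s + k` with `s` the sum over `ψ` minus `{a, b}`, and the sum over `P'` minus `{a,b}` is `s + k'`; both
are divisible by `N - 1 - b` and `b < k, k'`. So `k = k'` (`eq_of_dvd`) and
`P = insert k ψ = P'`. So `(l - 1) * (OB l N).card ≤ N.choose l` (e.g. `card_sigma`,
`card_le_card_of_injOn` with the family of sets `(P.erase a).erase b`, `a, b` chosen by
`exists_two`).
-/

set_option autoImplicit false

namespace Pool.Agent.Work.MP_0ea01d_co.TB

open Finset

theorem card_OB_le (l N : ℕ) (hl : 2 ≤ l) : (l - 1) * (OB l N).card ≤ N.choose l := by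
  classical
  have main := card_mul_le_card_mul (s := OB l N)
    (t := (univ : Finset (Fin N)).powersetCard l)
    (fun (P ψ : Finset (Fin N)) => ∃ a b k, Two a b P ∧ k ∈ P ∧ k ≠ a ∧ k ≠ b ∧ ψ = P.erase k)
    (m := l - 1) (n := 1) ?_ ?_
  · rw [mul_one, card_powersetCard, card_univ, Fintype.card_fin, mul_comm] at main
    exact main
  · intro P hP
    rw [OB, mem_filter, mem_powersetCard] at hP
    obtain ⟨⟨-, hc⟩, a, b, hab, -⟩ := hP
    have hba : b ∈ P.erase a := mem_erase.2 ⟨hab.2.2.1.ne', hab.2.1⟩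
    have h1 : ((P.erase a).erase b).card = l - 1 := by
      rw [card_erase_of_mem hba, card_erase_of_mem hab.1, hc]
      omega
    rw [← h1]
    have h2 : (((P.erase a).erase b).image fun k => P.erase k).card =
        ((P.erase a).erase b).card := by
      refine card_image_of_injOn ?_
      intro k hk k' hk' hkk
      have h3 : k ∈ P := mem_of_mem_erase (mem_of_mem_erase hk)
      have h4 : k' ∈ P := mem_of_mem_erase (mem_of_mem_erase hk')
      by_contra hne
      have h5 : k' ∈ P.erase k := mem_erase.2 ⟨fun h => hne h.symm, h4⟩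
      simp only at hkk
      rw [hkk] at h5
      exact absurd h5 (notMem_erase k' P)
    rw [← h2]
    refine card_le_card ?_
    intro ψ hψ
    rw [mem_image] at hψ
    obtain ⟨k, hk, rfl⟩ := hψ
    have h3 := mem_erase.1 hk
    have h4 := mem_erase.1 h3.2
    rw [mem_bipartiteAbove, mem_powersetCard]
    refine ⟨⟨subset_univ _, ?_⟩, a, b, k, hab, h4.2, h4.1, h3.1, rfl⟩
    rw [card_erase_of_mem h4.2, hc]
    omega
  · intro ψ hψ
    rw [card_le_one]
    intro P hP P' hP'
    rw [mem_bipartiteBelow] at hP hP'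
    obtain ⟨hO, a, b, k, hab, hk, hka, hkb, he⟩ := hP
    obtain ⟨hO', a', b', k', hab', hk', hka', hkb', he'⟩ := hP'
    rw [OB, mem_filter] at hO hO'
    obtain ⟨-, a0, b0, h0, hd⟩ := hO
    obtain ⟨-, a1, b1, h1, hd'⟩ := hO'
    obtain ⟨rfl, rfl⟩ := two_unique h0 hab
    obtain ⟨rfl, rfl⟩ := two_unique h1 hab'
    have e1 : Two a0 b0 ψ := by
      rw [he]
      exact two_erase hab hka hkb
    have e2 : Two a1 b1 ψ := by
      rw [he']
      exact two_erase hab' hka' hkb'
    obtain ⟨rfl, rfl⟩ := two_unique e1 e2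
    have key : ∀ (R : Finset (Fin N)) (j : Fin N), j ∈ R → j ≠ a0 → j ≠ b0 → ψ = R.erase j →
        ∑ i ∈ (R.erase a0).erase b0, (i : ℕ) = ∑ i ∈ (ψ.erase a0).erase b0, (i : ℕ) + j := by
      intro R j hj hja hjb hR
      have hm : j ∈ (R.erase a0).erase b0 := mem_erase.2 ⟨hjb, mem_erase.2 ⟨hja, hj⟩⟩
      rw [← sum_erase_add _ _ hm, hR, erase_right_comm (a := b0) (b := j),
        erase_right_comm (a := a0) (b := j)]
    rw [key P k hk hka hkb he] at hd
    rw [key P' k' hk' hka' hkb' he'] at hd'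
    have hkk : k = k' := eq_of_dvd (hab.2.2.2 k hk hka hkb) (hab'.2.2.2 k' hk' hka' hkb') _ hd hd'
    subst hkk
    rw [← insert_erase hk, ← insert_erase hk', ← he, ← he']

end Pool.Agent.Work.MP_0ea01d_co.TB
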