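import Pool.Agent.Work.MP_0ea01d_co.TB.Bridge
import Pool.Agent.Work.MP_0ea01d_co.TB.OrdCard
import Pool.Agent.Work.MP_0ea01d_co.TB.OrdBad
import Pool.Agent.Work.MP_0ea01d_co.TB.ExLim

/-!
# Module MainA (M). The upper bound for the minimum.

Proof. Put `θ = t - 1/(l-1) - ε`. If `θ < 0`, then `1 - θ > 1`: take any `m ∈ S n l` with `m ≤ n.choose l`
(the closed family `∅`: `Clo.empty`, `Clo.mem_S`, `NN_empty`; `l + 1 ≤ n`), so
`m = n.choose l ≤ (1 - θ) * n.choose l`. Let `θ ≥ 0`. Choose `N` large (see below) and `G` on `Fin N`,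
`Free l G`, `G.card = ex l N` (`exists_ex`). Take `B0 = OB l N`, `u P, w P` = the two smallest members
(for `P ∈ OB l N` they exist; chosen by `exists_two`, default: `N ≥ 1`), and
`U0 = G.filter (∃ P ∈ OB l N, ∃ a b, Two a b P ∧ ∃ k ∈ P, k ≠ a ∧ k ≠ b ∧ ψ = P.erase k)`
(`two_unique` identifies `a, b` with `u P, w P`). Then `U0.card ≥ ex l N - 2 * N.choose (l-1)`
(`card_bad_OB`; members of `G` have card `l`), `B0.card ≤ N.choose l / (l-1)` (`card_OB_le`). With
`c = θ / l!`, `c * N ^ l < U0.card - B0.card` for large `N`: divide by `N ^ l / l!`: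
`N.choose l * l! / N ^ l → 1`, `N.choose (l-1) / N ^ l → 0`, `ex l N / N.choose l → t`, so the right
side divided tends to `t - 1/(l-1) > θ`. `bridge` gives for all large `n` some `m ∈ S n l` with
`m ≤ n.choose l - c n ^ l ≤ n.choose l - θ * n.choose l`, as `n.choose l ≤ n ^ l / l!`
(`Nat.choose_le_pow_div`).
-/

set_option autoImplicit false

namespace Pool.Agent.Work.MP_0ea01d_co.TB

open Finset Filter Topology

private theorem choose_lim (k : ℕ) :
    Tendsto (fun n : ℕ => (n.choose k : ℝ) / (n : ℝ) ^ k) atTop (𝓝 (1 / (k.factorial : ℝ))) := by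
  have hz : ∀ᶠ x : ℕ in atTop, ((x : ℝ) ^ k / (k.factorial : ℝ)) ≠ 0 := by
    filter_upwards [eventually_gt_atTop 0] with n hn
    have hn' : (0 : ℝ) < n := by exact_mod_cast hn
    have hf : (0 : ℝ) < k.factorial := by exact_mod_cast k.factorial_pos
    positivity
  have h1 := (Asymptotics.isEquivalent_iff_tendsto_one hz).1 (isEquivalent_choose k)
  have h2 : Tendsto (fun n : ℕ => (1 / (k.factorial : ℝ)) *
      (((n.choose k : ℕ) : ℝ) / ((n : ℝ) ^ k / k.factorial))) atTop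
      (𝓝 (1 / (k.factorial : ℝ) * 1)) := h1.const_mul _
  rw [mul_one] at h2
  refine h2.congr' ?_
  filter_upwards [eventually_gt_atTop 0] with n hn
  have hn' : (0 : ℝ) < n := by exact_mod_cast hn
  have hf : (0 : ℝ) < k.factorial := by exact_mod_cast k.factorial_pos
  field_simp

private theorem clo_empty {W : Type} [DecidableEq W] (l : ℕ) :
    Clo l (∅ : Finset (Finset W)) := by
  refine ⟨by simp, fun T hT hall => ?_⟩
  obtain ⟨Y, hY, hYc⟩ := exists_subset_card_eq (show l ≤ T.card by omega)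
  obtain ⟨T', hT', -⟩ := hall Y hY hYc
  simp at hT'

private theorem main_lim {l : ℕ} (hl : 3 ≤ l) {t : ℝ}
    (ht : Tendsto (fun n : ℕ => (ex l n : ℝ) / n.choose l) atTop (𝓝 t)) :
    Tendsto (fun n : ℕ => ((ex l n : ℝ) - 2 * n.choose (l - 1) -
      n.choose l / ((l : ℝ) - 1)) / (n : ℝ) ^ l) atTop
      (𝓝 ((t - 1 / ((l : ℝ) - 1)) * (1 / (l.factorial : ℝ)))) := by
  have h1 := choose_lim l
  have h2 := choose_lim (l - 1)
  have h3 : Tendsto (fun n : ℕ => (ex l n : ℝ) / n.choose l * ((n.choose l : ℝ) / (n : ℝ) ^ l) -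
      2 * ((n.choose (l - 1) : ℝ) / (n : ℝ) ^ (l - 1) * (1 / (n : ℝ))) -
      1 / ((l : ℝ) - 1) * ((n.choose l : ℝ) / (n : ℝ) ^ l)) atTop
      (𝓝 (t * (1 / (l.factorial : ℝ)) - 2 * (1 / ((l - 1).factorial : ℝ) * 0) -
        1 / ((l : ℝ) - 1) * (1 / (l.factorial : ℝ)))) :=
    ((ht.mul h1).sub ((h2.mul tendsto_one_div_atTop_nhds_zero_nat).const_mul 2)).sub
      (h1.const_mul _)
  have e : t * (1 / (l.factorial : ℝ)) - 2 * (1 / ((l - 1).factorial : ℝ) * 0) -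
        1 / ((l : ℝ) - 1) * (1 / (l.factorial : ℝ)) =
      (t - 1 / ((l : ℝ) - 1)) * (1 / (l.factorial : ℝ)) := by ring
  rw [e] at h3
  refine h3.congr' ?_
  filter_upwards [eventually_ge_atTop (l + 1)] with n hn
  have hn' : (0 : ℝ) < n := by exact_mod_cast (by omega : 0 < n)
  have hc : (0 : ℝ) < n.choose l := by exact_mod_cast Nat.choose_pos (by omega)
  have hp : (n : ℝ) ^ l = (n : ℝ) ^ (l - 1) * n := by
    rw [← pow_succ]
    congr 1
    omega
  have hl1 : (0 : ℝ) < (l : ℝ) - 1 := by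
    have : (3 : ℝ) ≤ l := by exact_mod_cast hl
    linarith
  have e1 : (ex l n : ℝ) / n.choose l * ((n.choose l : ℝ) / (n : ℝ) ^ l) =
      (ex l n : ℝ) / (n : ℝ) ^ l := by
    field_simp
  have e2 : (n.choose (l - 1) : ℝ) / (n : ℝ) ^ (l - 1) * (1 / (n : ℝ)) =
      (n.choose (l - 1) : ℝ) / (n : ℝ) ^ l := by
    rw [hp]
    field_simp
  rw [e1, e2]
  ring

theorem main_a {l : ℕ} (hl : 3 ≤ l) {t : ℝ}
    (ht : Tendsto (fun n : ℕ => (ex l n : ℝ) / n.choose l) atTop (𝓝 t)) {ε : ℝ} (hε : 0 < ε) :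
    ∀ᶠ n : ℕ in atTop, ∃ m ∈ S n l,
      (m : ℝ) ≤ (1 - t + 1 / ((l : ℝ) - 1) + ε) * n.choose l := by
  classical
  have hf : (0 : ℝ) < l.factorial := by exact_mod_cast l.factorial_pos
  rcases lt_or_ge (t - 1 / ((l : ℝ) - 1) - ε) 0 with hθ | hθ
  · filter_upwards [eventually_ge_atTop (l + 1)] with n hn
    obtain ⟨m, hm, hme⟩ := (clo_empty (W := Fin n) l).mem_S hn
    rw [NN_empty, sub_zero] at hme
    refine ⟨m, hm, ?_⟩
    have hme' : (m : ℝ) = n.choose l := by exact_mod_cast hme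
    rw [hme']
    have h0 : (0 : ℝ) ≤ n.choose l := by positivity
    nlinarith
  · have hlim := main_lim hl ht
    have hlt : (t - 1 / ((l : ℝ) - 1) - ε) * (1 / (l.factorial : ℝ)) <
        (t - 1 / ((l : ℝ) - 1)) * (1 / (l.factorial : ℝ)) := by
      apply mul_lt_mul_of_pos_right _ (by positivity)
      linarith
    obtain ⟨N, hN1, hN2⟩ := ((hlim.eventually (lt_mem_nhds hlt)).and
      (eventually_ge_atTop (l + 1))).exists
    obtain ⟨G, hG, hGc⟩ := exists_ex l N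
    have hN0 : 0 < N := by omega
    -- the two smallest members
    have hch : ∀ P : Finset (Fin N), ∃ ab : Fin N × Fin N, P ∈ OB l N → Two ab.1 ab.2 P := by
      intro P
      by_cases hP : P ∈ OB l N
      · unfold OB at hP
        rw [mem_filter] at hP
        obtain ⟨_, a, b, hab, _⟩ := hP
        exact ⟨(a, b), fun _ => hab⟩
      · exact ⟨(⟨0, hN0⟩, ⟨0, hN0⟩), fun h => (hP h).elim⟩
    choose ab hab using hch
    have hcard : ∀ P ∈ OB l N, P.card = l + 1 := by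
      intro P hP
      unfold OB at hP
      rw [mem_filter, mem_powersetCard] at hP
      exact hP.1.2
    have hB0 : ∀ P ∈ OB l N, P.card = l + 1 ∧ (ab P).1 ∈ P ∧ (ab P).2 ∈ P ∧
        (ab P).1 ≠ (ab P).2 := fun P hP =>
      ⟨hcard P hP, (hab P hP).1, (hab P hP).2.1, (hab P hP).2.2.1.ne⟩
    have hU : ∀ ψ ∈ (G.filter fun ψ => ∃ P ∈ OB l N, ∃ a b, Two a b P ∧
        ∃ k ∈ P, k ≠ a ∧ k ≠ b ∧ ψ = P.erase k), ψ ∈ G ∧ ∃ P ∈ OB l N, ∃ k ∈ P,
        k ≠ (ab P).1 ∧ k ≠ (ab P).2 ∧ ψ = P.erase k := by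
      intro ψ hψ
      rw [mem_filter] at hψ
      obtain ⟨hψG, P, hP, a, b, hTwo, k, hk, h1, h2, h3⟩ := hψ
      obtain ⟨e1, e2⟩ := two_unique hTwo (hab P hP)
      exact ⟨hψG, P, hP, k, hk, e1 ▸ h1, e2 ▸ h2, h3⟩
    have hUc : (ex l N : ℝ) ≤ ((G.filter fun ψ => ∃ P ∈ OB l N, ∃ a b, Two a b P ∧
        ∃ k ∈ P, k ≠ a ∧ k ≠ b ∧ ψ = P.erase k).card : ℝ) + 2 * N.choose (l - 1) := by
      have h1 : G ⊆ (G.filter fun ψ => ∃ P ∈ OB l N, ∃ a b, Two a b P ∧
          ∃ k ∈ P, k ≠ a ∧ k ≠ b ∧ ψ = P.erase k) ∪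
          ((univ.powersetCard l : Finset (Finset (Fin N))).filter fun ψ =>
            ¬ ∃ P ∈ OB l N, ∃ a b, Two a b P ∧ ∃ k ∈ P, k ≠ a ∧ k ≠ b ∧ ψ = P.erase k) := by
        intro ψ hψ
        rw [mem_union, mem_filter, mem_filter, mem_powersetCard]
        by_cases h : ∃ P ∈ OB l N, ∃ a b, Two a b P ∧ ∃ k ∈ P, k ≠ a ∧ k ≠ b ∧ ψ = P.erase k
        · exact Or.inl ⟨hψ, h⟩
        · exact Or.inr ⟨⟨subset_univ _, hG.card ψ hψ⟩, h⟩
      have h2 := (card_le_card h1).trans (card_union_le _ _)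
      have h3 := card_bad_OB l N hl
      have h4 : ex l N ≤ (G.filter fun ψ => ∃ P ∈ OB l N, ∃ a b, Two a b P ∧
          ∃ k ∈ P, k ≠ a ∧ k ≠ b ∧ ψ = P.erase k).card + 2 * N.choose (l - 1) := by
        rw [← hGc]
        refine h2.trans ?_
        gcongr
      exact_mod_cast h4
    have hOB : ((OB l N).card : ℝ) ≤ N.choose l / ((l : ℝ) - 1) := by
      have h1 := card_OB_le l N (by omega)
      have h2 : ((l - 1 : ℕ) : ℝ) * (OB l N).card ≤ N.choose l := by exact_mod_cast h1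
      rw [Nat.cast_sub (by omega), Nat.cast_one] at h2
      have hl1 : (0 : ℝ) < (l : ℝ) - 1 := by
        have : (3 : ℝ) ≤ l := by exact_mod_cast hl
        linarith
      rw [le_div_iff₀ hl1]
      linarith
    have hNp : (0 : ℝ) < (N : ℝ) ^ l := by
      have : (0 : ℝ) < N := by exact_mod_cast hN0
      positivity
    rw [lt_div_iff₀ hNp] at hN1
    have hbr := bridge (l := l) (by omega) hG hB0 hU
      ((t - 1 / ((l : ℝ) - 1) - ε) * (1 / (l.factorial : ℝ))) (by positivity) (by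
        rw [Fintype.card_fin]
        linarith)
    filter_upwards [hbr] with n hn
    obtain ⟨m, hm, hme⟩ := hn
    refine ⟨m, hm, hme.trans ?_⟩
    have h5 : (n.choose l : ℝ) ≤ (n : ℝ) ^ l / l.factorial := Nat.choose_le_pow_div l n
    have h6 := mul_le_mul_of_nonneg_left h5 hθ
    have h7 : (t - 1 / ((l : ℝ) - 1) - ε) * ((n : ℝ) ^ l / l.factorial) =
        (t - 1 / ((l : ℝ) - 1) - ε) * (1 / (l.factorial : ℝ)) * (n : ℝ) ^ l := by ring
    rw [h7] at h6
    linarith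

end Pool.Agent.Work.MP_0ea01d_co.TB
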