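import Pool.Agent.Work.MP_0ea01d_co.TB.Defs

/-!
# Module OrdDefs (S). The ordered family of blocks on `Fin N`.

`Two a b P`: `a < b` are the two smallest members of `P`. `OB l N`: the `(l+1)`-sets `P` such that
the sum of the members of `P` other than its two smallest members `a < b` is divisible by
`N - 1 - b` (the number of elements of `Fin N` above `b`).

`two_unique`: `a` is the minimum of `P` and `b` the minimum of `P.erase a` (`lt` antisymmetry).
`exists_two`: for `2 ≤ P.card` take `a = P.min'`, `b = (P.erase a).min'`.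
`two_erase`: removing another point keeps the two smallest. `two_insert`: adding a point above `b`
keeps the two smallest.
-/

set_option autoImplicit false

namespace Pool.Agent.Work.MP_0ea01d_co.TB

open Finset

/-- `a < b` are the two smallest members of `P`. -/
def Two {N : ℕ} (a b : Fin N) (P : Finset (Fin N)) : Prop :=
  a ∈ P ∧ b ∈ P ∧ a < b ∧ ∀ k ∈ P, k ≠ a → k ≠ b → b < k

open Classical in
/-- The ordered family of blocks. -/
noncomputable def OB (l N : ℕ) : Finset (Finset (Fin N)) :=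
  (univ.powersetCard (l + 1)).filter fun P =>
    ∃ a b, Two a b P ∧ (N - 1 - (b : ℕ)) ∣ ∑ k ∈ (P.erase a).erase b, (k : ℕ)

theorem two_unique {N : ℕ} {a b a' b' : Fin N} {P : Finset (Fin N)} (h : Two a b P)
    (h' : Two a' b' P) : a = a' ∧ b = b' := by
  obtain ⟨ha, hb, hab, hk⟩ := h
  obtain ⟨ha', hb', hab', hk'⟩ := h'
  have h1 := hk a' ha'
  have h2 := hk b' hb'
  have h3 := hk' a ha
  have h4 := hk' b hb
  simp only [Fin.lt_def, Fin.ext_iff, ne_eq] at *
  by_cases c1 : (a' : ℕ) = a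
  · by_cases c2 : (b' : ℕ) = b
    · exact ⟨c1.symm, c2.symm⟩
    · exfalso
      have h2' := h2 (by omega) c2
      have h4' := h4 (by omega) (by omega)
      omega
  · exfalso
    by_cases c2 : (a' : ℕ) = b
    · by_cases c3 : (a : ℕ) = b'
      · omega
      · have h3' := h3 (by omega) c3
        omega
    · have h1' := h1 c1 c2
      by_cases c3 : (a : ℕ) = b'
      · omega
      · have h3' := h3 (by omega) c3
        omega

theorem exists_two {N : ℕ} {P : Finset (Fin N)} (h : 2 ≤ P.card) : ∃ a b, Two a b P := by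
  have hne : P.Nonempty := card_pos.1 (by omega)
  have ha := P.min'_mem hne
  have hne2 : (P.erase (P.min' hne)).Nonempty := by
    rw [← card_pos, card_erase_of_mem ha]
    omega
  have hb := (P.erase (P.min' hne)).min'_mem hne2
  refine ⟨P.min' hne, (P.erase (P.min' hne)).min' hne2, ha, mem_of_mem_erase hb, ?_, ?_⟩
  · exact lt_of_le_of_ne (P.min'_le _ (mem_of_mem_erase hb)) (ne_of_mem_erase hb).symm
  · intro k hk h1 h2
    exact lt_of_le_of_ne ((P.erase (P.min' hne)).min'_le _ (mem_erase.2 ⟨h1, hk⟩)) h2.symm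

theorem two_erase {N : ℕ} {a b k : Fin N} {P : Finset (Fin N)} (h : Two a b P) (ha : k ≠ a)
    (hb : k ≠ b) : Two a b (P.erase k) := by
  exact ⟨mem_erase.2 ⟨ha.symm, h.1⟩, mem_erase.2 ⟨hb.symm, h.2.1⟩, h.2.2.1,
    fun j hj => h.2.2.2 j (mem_of_mem_erase hj)⟩

theorem two_insert {N : ℕ} {a b k : Fin N} {P : Finset (Fin N)} (h : Two a b P) (hb : b < k) :
    Two a b (insert k P) := by
  refine ⟨mem_insert_of_mem h.1, mem_insert_of_mem h.2.1, h.2.2.1, fun j hj h1 h2 => ?_⟩
  rcases mem_insert.1 hj with h3 | h3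
  · rw [h3]
    exact hb
  · exact h.2.2.2 j h3 h1 h2

/-- Elements above `b` with the same residue modulo `N - 1 - b` are equal. -/
theorem eq_of_dvd {N : ℕ} {b k k' : Fin N} (hk : b < k) (hk' : b < k') (s : ℕ)
    (h : (N - 1 - (b : ℕ)) ∣ s + k) (h' : (N - 1 - (b : ℕ)) ∣ s + k') : k = k' := by
  have key : ∀ u v : Fin N, b < u → b < v → (N - 1 - (b : ℕ)) ∣ s + u →
      (N - 1 - (b : ℕ)) ∣ s + v → (u : ℕ) ≤ v → u = v := by
    intro u v hu hv h1 h2 huv
    have h3 : (N - 1 - (b : ℕ)) ∣ (v : ℕ) - u := by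
      have h4 := Nat.dvd_sub h2 h1
      have e : s + (v : ℕ) - (s + u) = v - u := by omega
      rwa [e] at h4
    rw [Fin.lt_def] at hu hv
    have h5 := v.isLt
    have h6 := Nat.eq_zero_of_dvd_of_lt h3 (by omega)
    exact Fin.ext (by omega)
  rcases le_total (k : ℕ) k' with h1 | h1
  · exact key k k' hk hk' h h' h1
  · exact (key k' k hk' hk h' h h1).symm

/-- Every residue is attained above `b`. -/
theorem exists_dvd {N : ℕ} {b c : Fin N} (hc : b < c) (s : ℕ) :
    ∃ k : Fin N, b < k ∧ (N - 1 - (b : ℕ)) ∣ s + k := by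
  rw [Fin.lt_def] at hc
  have hcN := c.isLt
  obtain ⟨M, hM⟩ : ∃ M, M = N - 1 - (b : ℕ) := ⟨_, rfl⟩
  have hM0 : 0 < M := by omega
  rw [← hM]
  obtain ⟨j, hj, hjd⟩ : ∃ j < M, M ∣ s + (b + 1 + j) := by
    have h1 := Nat.mod_lt (s + (b + 1)) hM0
    have h2 := Nat.div_add_mod (s + (b + 1)) M
    by_cases h3 : (s + ((b : ℕ) + 1)) % M = 0
    · refine ⟨0, hM0, ?_⟩
      rw [Nat.add_zero]
      exact Nat.dvd_of_mod_eq_zero h3
    · refine ⟨M - (s + (b + 1)) % M, by omega, (s + (b + 1)) / M + 1, ?_⟩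
      rw [mul_add, mul_one]
      omega
  refine ⟨⟨b + 1 + j, by omega⟩, ?_, hjd⟩
  rw [Fin.lt_def]
  simp only
  omega

end Pool.Agent.Work.MP_0ea01d_co.TB
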