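import Pool.Agent.Work.MP_0ea01d_co.TB.StgDefs
import Pool.Agent.Work.MP_0ea01d_co.TB.FibA
import Pool.Agent.Work.MP_0ea01d_co.TB.LinA

/-!
# Module StgCount (S). The number of blocks of the first stage.

Proof. Write `N = card V`. If `B0 = ∅` then `B1 = ∅`. Otherwise `l + 1 ≤ N`. By `card_fib`
(`k = l + 1`, shape `B1_shape`), `B1.card * r ^ (N - (l+1)) = ∑ P (|P| = l+1) #{x | lft P x ∈ B1}`
`≤ ∑ P ∈ B0, #{x | ∑ k ∈ (P.erase (y P)).erase (z P), x k = 0}` (`mem_B1`), and each of these sets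
satisfies `# * r = r ^ N` by `card_lab_one`: `(P.erase (y P)).erase (z P)` has at least
`l + 1 - 2 ≥ 1` points. So `B1.card * r ^ (N - (l+1)) * r ≤ B0.card * r ^ N` and
`r ^ N = r ^ (N - (l+1)) * r * r ^ l`; cancel.
-/

set_option autoImplicit false

namespace Pool.Agent.Work.MP_0ea01d_co.TB

open Finset

variable {V : Type} [DecidableEq V] [Fintype V] {r : ℕ} [NeZero r] {l : ℕ}

theorem card_B1_le (hl : 2 ≤ l) {G B0 : Finset (Finset V)} {y z : Finset V → V}
    (hB0 : ∀ P ∈ B0, P.card = l + 1) : (B1 r G B0 y z).card ≤ B0.card * r ^ l := by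
  have hr0 : 0 < r := Nat.pos_of_ne_zero (NeZero.ne r)
  have hfib := card_fib (l + 1) (B1 r G B0 y z) (B1_shape hB0)
  rw [ZMod.card r] at hfib
  have hsub : B0 ⊆ univ.powersetCard (l + 1) := fun P hP =>
    mem_powersetCard.2 ⟨subset_univ _, hB0 P hP⟩
  have h0 : ∀ P ∈ univ.powersetCard (l + 1), P ∉ B0 →
      (univ.filter fun x : V → ZMod r => lft P x ∈ B1 r G B0 y z).card = 0 := by
    intro P _ hP
    rw [card_eq_zero, filter_eq_empty_iff]
    intro x _ hx
    exact hP (mem_B1.1 hx).1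
  rw [← sum_subset hsub h0] at hfib
  have h1 : ∀ P ∈ B0, (univ.filter fun x : V → ZMod r => lft P x ∈ B1 r G B0 y z).card * r ≤
      r ^ Fintype.card V := by
    intro P hP
    have hne : ((P.erase (y P)).erase (z P)).Nonempty := by
      rw [← card_pos]
      have e1 := pred_card_le_card_erase (s := P) (a := y P)
      have e2 := pred_card_le_card_erase (s := P.erase (y P)) (a := z P)
      have e3 := hB0 P hP
      omega
    rw [← card_lab_one _ hne (0 : ZMod r)]
    refine Nat.mul_le_mul_right r (card_le_card ?_)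
    intro x hx
    rw [mem_filter] at hx ⊢
    exact ⟨hx.1, (mem_B1.1 hx.2).2.1⟩
  have h2 : (B1 r G B0 y z).card * r ^ (Fintype.card V - (l + 1)) * r ≤
      B0.card * r ^ Fintype.card V := by
    rw [hfib, sum_mul, ← smul_eq_mul (a := B0.card), ← sum_const]
    exact sum_le_sum h1
  rcases B0.eq_empty_or_nonempty with hB | ⟨P, hP⟩
  · rw [hB, card_empty, zero_mul] at h2 ⊢
    have h3 : 0 < r ^ (Fintype.card V - (l + 1)) := Nat.pow_pos hr0
    have h4 := Nat.le_zero.1 h2
    rcases Nat.mul_eq_zero.1 h4 with h5 | h5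
    · rcases Nat.mul_eq_zero.1 h5 with h6 | h6
      · rw [h6]
      · omega
    · omega
  · have hN : l + 1 ≤ Fintype.card V := by
      rw [← hB0 P hP]
      exact card_le_univ P
    obtain ⟨d, hd⟩ := Nat.exists_eq_add_of_le hN
    have e1 : Fintype.card V - (l + 1) = d := by omega
    rw [e1, hd] at h2
    have h3 : 0 < r ^ d * r := Nat.mul_pos (Nat.pow_pos hr0) hr0
    refine Nat.le_of_mul_le_mul_right ?_ h3
    calc (B1 r G B0 y z).card * (r ^ d * r) = (B1 r G B0 y z).card * r ^ d * r := by ring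
      _ ≤ B0.card * r ^ (l + 1 + d) := h2
      _ = B0.card * r ^ l * (r ^ d * r) := by ring

end Pool.Agent.Work.MP_0ea01d_co.TB
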