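import Pool.Agent.Work.MP_0ea01d_co.TB.StgDefs
import Pool.Agent.Work.MP_0ea01d_co.TB.FibA
import Pool.Agent.Work.MP_0ea01d_co.TB.LinA

/-!
# Module StgCov (M). The covered edges of the first stage.

Proof. Write `N = card V`, `U' = covd (G1 r G) (B1 r G B0 y z)`. If `U0 = ∅` trivial; otherwise
`l ≤ N`. All members of `U'` are in `G1`, so by `G1_shape` and `card_fib` (`k = l`)
`U'.card * r ^ (N - l) = ∑ ψ (|ψ| = l) #{x | lft ψ x ∈ U'} ≥ ∑ ψ ∈ U0, #{x | lft ψ x ∈ U'}`.
Let `ψ ∈ U0`, `ψ ∈ G`, `ψ = P.erase k`, `P ∈ B0`, `k ∈ P`, `k ≠ z P`. As `ψ ∈ G` and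
`P.erase (y P) ∉ G`, `k ≠ y P`. Claim: if `x` satisfies `∑ j ∈ ψ.erase i, x j ≠ 0` for all `i ∈ ψ`,
then `lft ψ x ∈ U'`. Indeed `lft ψ x ∈ G1` (`mem_G1`). Let `x' = Function.update x k s` with `s` such
that `∑ j ∈ (P.erase (y P)).erase (z P), x' j = 0` (possible since `k` is in this set). As `k ∉ ψ`,
`lft ψ x = lft ψ x'` (`lft_congr`), so `lft (P.erase k) x' = lft ψ x ∈ G1`; so `lft P x' ∈ B1`
(`mem_B1`) and `lft ψ x = lft ψ x' ⊆ lft P x'` (`lft_subset`). This proves the claim. The number of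
`x` not satisfying the hypothesis of the claim is at most `∑ i ∈ ψ, #{x | ∑ j ∈ ψ.erase i, x j = 0}`,
and `#{..} * r = r ^ N` by `card_lab_one` (`ψ.erase i` has `l - 1 ≥ 1` points). So
`#{x | lft ψ x ∈ U'} * r + l * r ^ N ≥ r ^ N * r`. Sum over `ψ ∈ U0`, use
`r ^ N = r ^ (N - l) * r * r ^ (l-1)`, `r ^ N * r = r ^ (N - l) * r * r ^ l` and cancel
`r ^ (N - l) * r`.
-/

set_option autoImplicit false

namespace Pool.Agent.Work.MP_0ea01d_co.TB

open Finset

variable {V : Type} [DecidableEq V] [Fintype V] {r : ℕ} [NeZero r] {l : ℕ}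

theorem card_cov_stage (hl : 2 ≤ l) {G B0 U0 : Finset (Finset V)} {y z : Finset V → V}
    (hG : Free l G) (hB0 : ∀ P ∈ B0, P.card = l + 1)
    (hy : ∀ P ∈ B0, y P ∈ P ∧ P.erase (y P) ∉ G) (hz : ∀ P ∈ B0, z P ∈ P ∧ z P ≠ y P)
    (hU : ∀ ψ ∈ U0, ψ ∈ G ∧ ∃ P ∈ B0, ∃ k ∈ P, k ≠ z P ∧ ψ = P.erase k) :
    U0.card * r ^ l ≤
      (covd (G1 r G) (B1 r G B0 y z)).card + U0.card * l * r ^ (l - 1) := by
  rcases U0.eq_empty_or_nonempty with h0 | h0
  · subst h0
    simp
  obtain ⟨ψ0, hψ0⟩ := h0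
  have hlN : l ≤ Fintype.card V := by
    rw [← hG.card ψ0 (hU ψ0 hψ0).1]
    exact card_le_univ _
  have hr : 0 < r := Nat.pos_of_ne_zero (NeZero.ne r)
  set U' := covd (G1 r G) (B1 r G B0 y z) with hU'
  have hsub : U' ⊆ G1 r G := filter_subset _ _
  have hfib := card_fib (V := V) (A := ZMod r) l U' fun e he => G1_shape hG e (hsub he)
  rw [ZMod.card] at hfib
  -- the members of `U0`
  have hone : ∀ ψ ∈ U0, r ^ Fintype.card V * r ≤
      (univ.filter fun x : V → ZMod r => lft ψ x ∈ U').card * r +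
        l * r ^ Fintype.card V := by
    intro ψ hψ
    obtain ⟨hψG, P, hP, k, hk, hkz, hPk⟩ := hU ψ hψ
    have hky : k ≠ y P := by
      rintro rfl
      exact (hy P hP).2 (hPk ▸ hψG)
    have hkψ : k ∉ ψ := by
      rw [hPk]
      exact notMem_erase _ _
    have hcl : ψ.card = l := hG.card ψ hψG
    have claim : ∀ x : V → ZMod r, (∀ i ∈ ψ, ∑ j ∈ ψ.erase i, x j ≠ 0) → lft ψ x ∈ U' := by
      intro x hx
      have hx1 : lft ψ x ∈ G1 r G := mem_G1.2 ⟨hψG, hx⟩
      let x' : V → ZMod r := Function.update x k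
        (-∑ j ∈ ((P.erase (y P)).erase (z P)).erase k, x j)
      have hxx : ∀ v ∈ ψ, x v = x' v := by
        intro v hv
        have : v ≠ k := fun h => hkψ (h ▸ hv)
        exact (Function.update_of_ne this _ _).symm
      have hl' : lft ψ x = lft ψ x' := lft_congr hxx
      have hkm : k ∈ (P.erase (y P)).erase (z P) := by
        rw [mem_erase, mem_erase]
        exact ⟨hkz, hky, hk⟩
      have hsum : ∑ j ∈ (P.erase (y P)).erase (z P), x' j = 0 := by
        rw [← add_sum_erase _ _ hkm]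
        have e1 : x' k = -∑ j ∈ ((P.erase (y P)).erase (z P)).erase k, x j :=
          Function.update_self _ _ _
        have e2 : ∑ j ∈ ((P.erase (y P)).erase (z P)).erase k, x' j =
            ∑ j ∈ ((P.erase (y P)).erase (z P)).erase k, x j := by
          refine sum_congr rfl fun j hj => ?_
          exact Function.update_of_ne (ne_of_mem_erase hj) _ _
        rw [e1, e2]
        simp
      have hB : lft P x' ∈ B1 r G B0 y z := by
        rw [mem_B1]
        refine ⟨hP, hsum, k, hk, ?_⟩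
        rw [← hPk, ← hl']
        exact hx1
      rw [hU']
      unfold covd
      rw [mem_filter]
      refine ⟨hx1, lft P x', hB, ?_⟩
      rw [hl', hPk]
      exact lft_subset.2 (erase_subset _ _)
    have hcount : (univ : Finset (V → ZMod r)).card ≤
        (univ.filter fun x : V → ZMod r => lft ψ x ∈ U').card +
        ∑ i ∈ ψ, (univ.filter fun x : V → ZMod r => ∑ j ∈ ψ.erase i, x j = 0).card := by
      have hcov : (univ : Finset (V → ZMod r)) ⊆
          (univ.filter fun x : V → ZMod r => lft ψ x ∈ U') ∪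
          ψ.biUnion fun i => univ.filter fun x : V → ZMod r => ∑ j ∈ ψ.erase i, x j = 0 := by
        intro x _
        rw [mem_union]
        by_cases hx : ∀ i ∈ ψ, ∑ j ∈ ψ.erase i, x j ≠ 0
        · left
          rw [mem_filter]
          exact ⟨mem_univ _, claim x hx⟩
        · right
          push Not at hx
          obtain ⟨i, hi, hix⟩ := hx
          rw [mem_biUnion]
          exact ⟨i, hi, by rw [mem_filter]; exact ⟨mem_univ _, hix⟩⟩
      exact (card_le_card hcov).trans ((card_union_le _ _).trans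
        (Nat.add_le_add_left card_biUnion_le _))
    have hcu : (univ : Finset (V → ZMod r)).card = r ^ Fintype.card V := by
      rw [card_univ, Fintype.card_fun, ZMod.card]
    rw [hcu] at hcount
    have hlin : ∀ i ∈ ψ, (univ.filter fun x : V → ZMod r =>
        ∑ j ∈ ψ.erase i, x j = 0).card * r = r ^ Fintype.card V := by
      intro i hi
      refine card_lab_one _ ?_ _
      rw [← card_pos, card_erase_of_mem hi, hcl]
      omega
    calc r ^ Fintype.card V * r ≤ ((univ.filter fun x : V → ZMod r => lft ψ x ∈ U').card +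
        ∑ i ∈ ψ, (univ.filter fun x : V → ZMod r => ∑ j ∈ ψ.erase i, x j = 0).card) * r :=
        Nat.mul_le_mul_right _ hcount
      _ = (univ.filter fun x : V → ZMod r => lft ψ x ∈ U').card * r +
          ∑ i ∈ ψ, (univ.filter fun x : V → ZMod r => ∑ j ∈ ψ.erase i, x j = 0).card * r := by
          rw [add_mul, sum_mul]
      _ = _ := by
          rw [sum_congr rfl hlin, sum_const, hcl, smul_eq_mul]
  have hU0 : U0 ⊆ univ.powersetCard l := by
    intro ψ hψ
    rw [mem_powersetCard]
    exact ⟨subset_univ _, hG.card ψ (hU ψ hψ).1⟩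
  have hsum : ∑ ψ ∈ U0, (univ.filter fun x : V → ZMod r => lft ψ x ∈ U').card ≤
      U'.card * r ^ (Fintype.card V - l) := by
    rw [hfib]
    exact sum_le_sum_of_subset hU0
  have htot : U0.card * (r ^ Fintype.card V * r) ≤
      U'.card * r ^ (Fintype.card V - l) * r + U0.card * (l * r ^ Fintype.card V) := by
    calc U0.card * (r ^ Fintype.card V * r) = ∑ _ψ ∈ U0, r ^ Fintype.card V * r := by
          rw [sum_const, smul_eq_mul]
      _ ≤ ∑ ψ ∈ U0, ((univ.filter fun x : V → ZMod r => lft ψ x ∈ U').card * r +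
          l * r ^ Fintype.card V) := sum_le_sum hone
      _ = (∑ ψ ∈ U0, (univ.filter fun x : V → ZMod r => lft ψ x ∈ U').card) * r +
          U0.card * (l * r ^ Fintype.card V) := by
          rw [sum_add_distrib, ← sum_mul, sum_const, smul_eq_mul]
      _ ≤ _ := Nat.add_le_add_right (Nat.mul_le_mul_right _ hsum) _
  have e1 : r ^ Fintype.card V = r ^ (Fintype.card V - l) * r ^ l := by
    rw [← pow_add]
    congr 1
    omega
  have e2 : r ^ l = r * r ^ (l - 1) := by
    rw [← pow_succ']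
    congr 1
    omega
  have hpos : 0 < r ^ (Fintype.card V - l) * r := by positivity
  refine Nat.le_of_mul_le_mul_left ?_ hpos
  calc r ^ (Fintype.card V - l) * r * (U0.card * r ^ l) =
      U0.card * (r ^ Fintype.card V * r) := by rw [e1]; ring
    _ ≤ U'.card * r ^ (Fintype.card V - l) * r + U0.card * (l * r ^ Fintype.card V) := htot
    _ = r ^ (Fintype.card V - l) * r * (U'.card + U0.card * l * r ^ (l - 1)) := by
        rw [e1, e2]; ring

end Pool.Agent.Work.MP_0ea01d_co.TB
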