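import Pool.Agent.Work.MP_0ea01d_co.TB.StgTame
import Pool.Agent.Work.MP_0ea01d_co.TB.StgCount
import Pool.Agent.Work.MP_0ea01d_co.TB.StgCov

/-!
# Module Stage1 (S). First stage, assembled.

Proof. For `P ∈ B0` choose `y P ∈ P` with `P.erase (y P) ∉ G` (`hG.free`), and put
`z P = if y P = u P then w P else u P`; then `z P ∈ P`, `z P ≠ y P` (if `y P = u P` then
`z P = w P ≠ u P = y P`). Take `G' = G1 r G`, `B' = B1 r G B0 y z`. For `ψ ∈ U0`, `ψ = P.erase k`,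
`k ≠ u P`, `k ≠ w P`, so `k ≠ z P`. Apply `free_G1`, `tame_B1`, `card_B1_le`, `card_cov_stage`.
(For `P ∉ B0` the values of `y P` do not matter; if `V` is empty then `B0` is empty: use
`u P` as the default value.)
-/

set_option autoImplicit false

namespace Pool.Agent.Work.MP_0ea01d_co.TB

open Finset

variable {V : Type} [DecidableEq V] [Fintype V] {l : ℕ}

theorem stage_one (hl : 2 ≤ l) {G B0 U0 : Finset (Finset V)} {u w : Finset V → V}
    (hG : Free l G) (hB0 : ∀ P ∈ B0, P.card = l + 1 ∧ u P ∈ P ∧ w P ∈ P ∧ u P ≠ w P)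
    (hU : ∀ ψ ∈ U0, ψ ∈ G ∧ ∃ P ∈ B0, ∃ k ∈ P, k ≠ u P ∧ k ≠ w P ∧ ψ = P.erase k)
    (r : ℕ) [NeZero r] :
    ∃ G' B' : Finset (Finset (V × ZMod r)), Free l G' ∧ Tame l G' B' ∧
      B'.card ≤ B0.card * r ^ l ∧
      U0.card * r ^ l ≤ (covd G' B').card + U0.card * l * r ^ (l - 1) := by
  classical
  have hy0 : ∀ P : Finset V, ∃ v, P ∈ B0 → (v ∈ P ∧ P.erase v ∉ G) := by
    intro P
    by_cases hP : P ∈ B0
    · obtain ⟨v, hv, hv2⟩ := hG.free P (hB0 P hP).1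
      exact ⟨v, fun _ => ⟨hv, hv2⟩⟩
    · exact ⟨u P, fun h => absurd h hP⟩
  choose y hy using hy0
  have hB0' : ∀ P ∈ B0, P.card = l + 1 := fun P hP => (hB0 P hP).1
  obtain ⟨z, hz⟩ : ∃ z : Finset V → V, ∀ P, z P = if y P = u P then w P else u P :=
    ⟨fun P => if y P = u P then w P else u P, fun _ => rfl⟩
  have hz1 : ∀ P ∈ B0, z P ∈ P ∧ z P ≠ y P := by
    intro P hP
    obtain ⟨h1, h2, h3, h4⟩ := hB0 P hP
    rw [hz]
    by_cases h : y P = u P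
    · rw [if_pos h, h]
      exact ⟨h3, h4.symm⟩
    · rw [if_neg h]
      exact ⟨h2, fun h5 => h h5.symm⟩
  have hU' : ∀ ψ ∈ U0, ψ ∈ G ∧ ∃ P ∈ B0, ∃ k ∈ P, k ≠ z P ∧ ψ = P.erase k := by
    intro ψ hψ
    obtain ⟨h1, P, hP, k, hk, h2, h3, h4⟩ := hU ψ hψ
    refine ⟨h1, P, hP, k, hk, ?_, h4⟩
    rw [hz]
    by_cases h : y P = u P
    · rw [if_pos h]
      exact h3
    · rw [if_neg h]
      exact h2
  exact ⟨G1 r G, B1 r G B0 y z, free_G1 hl hG, tame_B1 hB0' (fun P hP => hy P hP) hz1,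
    card_B1_le hl hB0', card_cov_stage hl hG hB0' (fun P hP => hy P hP) hz1 hU'⟩

end Pool.Agent.Work.MP_0ea01d_co.TB
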