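import Pool.Agent.Work.MP_0ea01d_co.TB.LiftA

/-!
# Module StgDefs (S). First stage: making every block tame. Definitions and membership.

`G1 G`: transversal sets over members of `G` none of whose one-point-deleted label sums is `0`.
`B1 G B0 y z`: transversal sets over `P ∈ B0` with label sum `0` over `P` minus `y P`, `z P`, which
contain (as one-point-deleted set) a member of `G1 G`.

`mem_G1`: `lft ψ x = lft ψ' x'` gives `ψ = ψ'` and `x = x'` on `ψ` (`lft_inj`); the condition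
depends only on `x` on `ψ` (`sum_congr`). `mem_B1`: the same; the point `c ∈ lft P x` is `(v, x v)`,
`v ∈ P` (`mem_lft`) and `(lft P x).erase (v, x v) = lft (P.erase v) x` (`lft_erase`). The two shape
statements are immediate (`P.card = l` or `l + 1`).
-/

set_option autoImplicit false

namespace Pool.Agent.Work.MP_0ea01d_co.TB

open Finset

variable {V : Type} [DecidableEq V] [Fintype V] {r : ℕ} [NeZero r] {l : ℕ}

open Classical in
/-- Transversal sets over members of `G` without a vanishing sum of all labels but one. -/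
noncomputable def G1 (r : ℕ) [NeZero r] (G : Finset (Finset V)) : Finset (Finset (V × ZMod r)) :=
  univ.filter fun e => ∃ (ψ : Finset V) (x : V → ZMod r), e = lft ψ x ∧ ψ ∈ G ∧
    ∀ i ∈ ψ, ∑ k ∈ ψ.erase i, x k ≠ 0

open Classical in
/-- Transversal sets over members `P` of `B0` with label sum `0` over `P ∖ {y P, z P}` and containing
a member of `G1`. -/
noncomputable def B1 (r : ℕ) [NeZero r] (G B0 : Finset (Finset V)) (y z : Finset V → V) :
    Finset (Finset (V × ZMod r)) :=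
  univ.filter fun Q => (∃ (P : Finset V) (x : V → ZMod r), Q = lft P x ∧ P ∈ B0 ∧
    ∑ k ∈ (P.erase (y P)).erase (z P), x k = 0) ∧ ∃ c ∈ Q, Q.erase c ∈ G1 r G

theorem mem_G1 {G : Finset (Finset V)} {ψ : Finset V} {x : V → ZMod r} :
    lft ψ x ∈ G1 r G ↔ ψ ∈ G ∧ ∀ i ∈ ψ, ∑ k ∈ ψ.erase i, x k ≠ 0 := by
  unfold G1
  simp only [mem_filter, mem_univ, true_and]
  constructor
  · rintro ⟨ψ', x', he, hψ', hx'⟩
    obtain ⟨rfl, hxx⟩ := lft_inj he
    refine ⟨hψ', fun i hi => ?_⟩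
    rw [sum_congr rfl fun k hk => hxx k (mem_of_mem_erase hk)]
    exact hx' i hi
  · rintro ⟨h1, h2⟩
    exact ⟨ψ, x, rfl, h1, h2⟩

theorem mem_B1 {G B0 : Finset (Finset V)} {y z : Finset V → V} {P : Finset V}
    {x : V → ZMod r} :
    lft P x ∈ B1 r G B0 y z ↔ P ∈ B0 ∧ ∑ k ∈ (P.erase (y P)).erase (z P), x k = 0 ∧
      ∃ v ∈ P, lft (P.erase v) x ∈ G1 r G := by
  unfold B1
  simp only [mem_filter, mem_univ, true_and]
  constructor
  · rintro ⟨⟨P', x', he, hP', hx'⟩, c, hc, hce⟩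
    obtain ⟨rfl, hxx⟩ := lft_inj he
    refine ⟨hP', ?_, ?_⟩
    · rw [sum_congr rfl fun k hk => hxx k (mem_of_mem_erase (mem_of_mem_erase hk))]
      exact hx'
    · obtain ⟨h1, h2⟩ := mem_lft.1 hc
      refine ⟨c.1, h1, ?_⟩
      rw [← lft_erase, ← h2]
      exact hce
  · rintro ⟨h1, h2, v, hv, hve⟩
    refine ⟨⟨P, x, rfl, h1, h2⟩, (v, x v), mem_lft.2 ⟨hv, rfl⟩, ?_⟩
    rw [lft_erase]
    exact hve

theorem G1_shape {G : Finset (Finset V)} (hG : Free l G) (e : Finset (V × ZMod r))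
    (he : e ∈ G1 r G) : ∃ (P : Finset V) (x : V → ZMod r), P.card = l ∧ e = lft P x := by
  unfold G1 at he
  simp only [mem_filter, mem_univ, true_and] at he
  obtain ⟨ψ, x, rfl, h1, h2⟩ := he
  exact ⟨ψ, x, hG.card ψ h1, rfl⟩

theorem B1_shape {G B0 : Finset (Finset V)} {y z : Finset V → V}
    (hB0 : ∀ P ∈ B0, P.card = l + 1) (Q : Finset (V × ZMod r)) (hQ : Q ∈ B1 r G B0 y z) :
    ∃ (P : Finset V) (x : V → ZMod r), P.card = l + 1 ∧ Q = lft P x := by
  unfold B1 at hQ
  simp only [mem_filter, mem_univ, true_and] at hQ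
  obtain ⟨⟨P, x, rfl, h1, h2⟩, -⟩ := hQ
  exact ⟨P, x, hB0 P h1, rfl⟩

end Pool.Agent.Work.MP_0ea01d_co.TB
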