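import Pool.Agent.Work.MP_0ea01d_co.TB.StgDefs
import Pool.Agent.Work.MP_0ea01d_co.TB.LiftB

/-!
# Module StgTame (S/M). The first stage gives a free graph and a tame family.

`free_G1`: `card`: `lft ψ x` has `ψ.card = l` points. `free`: let `Q.card = l + 1` and suppose
`Q.erase z ∈ G1 r G` for all `z ∈ Q`. By `G1_shape` and `exists_lft`, `Q = lft P x`, `P.card = l + 1`;
by `hG.free` there is `v ∈ P`, `P.erase v ∉ G`; but `Q.erase (v, x v) = lft (P.erase v) x ∈ G1` gives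
`P.erase v ∈ G` (`mem_G1`), a contradiction.

`tame_B1`: `card` and `one` are immediate from `B1_shape` and the definition. `two`: `Q = lft P x`
with `P ∈ B0`, `∑ k ∈ (P.erase (y P)).erase (z P), x k = 0`. The points are `(y P, x (y P))` and
`(z P, x (z P))`. `Q.erase (y P, _) = lft (P.erase (y P)) x ∉ G1` since `P.erase (y P) ∉ G`.
`Q.erase (z P, _) = lft (P.erase (z P)) x ∉ G1`, since for `i = y P ∈ P.erase (z P)` the sum over
`(P.erase (z P)).erase (y P) = (P.erase (y P)).erase (z P)` is `0` (`erase_right_comm`).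
-/

set_option autoImplicit false

namespace Pool.Agent.Work.MP_0ea01d_co.TB

open Finset

variable {V : Type} [DecidableEq V] [Fintype V] {r : ℕ} [NeZero r] {l : ℕ}

theorem free_G1 (hl : 2 ≤ l) {G : Finset (Finset V)} (hG : Free l G) : Free l (G1 r G) := by
  refine ⟨?_, ?_⟩
  · intro ψ hψ
    obtain ⟨P, x, hP, rfl⟩ := G1_shape hG ψ hψ
    rw [card_lft, hP]
  · intro Q hQ
    by_contra hcon
    push Not at hcon
    obtain ⟨P, x, hP, rfl⟩ := exists_lft hl Q hQ fun z hz => by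
      obtain ⟨P, x, -, h⟩ := G1_shape hG _ (hcon z hz)
      exact ⟨P, x, h⟩
    obtain ⟨v, hv, hvG⟩ := hG.free P hP
    have h1 := hcon (v, x v) (mem_lft.2 ⟨hv, rfl⟩)
    rw [lft_erase, mem_G1] at h1
    exact hvG h1.1

theorem tame_B1 {G B0 : Finset (Finset V)} {y z : Finset V → V}
    (hB0 : ∀ P ∈ B0, P.card = l + 1) (hy : ∀ P ∈ B0, y P ∈ P ∧ P.erase (y P) ∉ G)
    (hz : ∀ P ∈ B0, z P ∈ P ∧ z P ≠ y P) : Tame l (G1 r G) (B1 r G B0 y z) := by
  refine ⟨?_, ?_, ?_⟩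
  · intro Q hQ
    obtain ⟨P, x, hP, rfl⟩ := B1_shape hB0 Q hQ
    rw [card_lft, hP]
  · intro Q hQ
    obtain ⟨P, x, hP, rfl⟩ := B1_shape hB0 Q hQ
    obtain ⟨hPB, hsum, -⟩ := mem_B1.1 hQ
    obtain ⟨hyP, hyG⟩ := hy P hPB
    obtain ⟨hzP, hzy⟩ := hz P hPB
    refine ⟨(y P, x (y P)), mem_lft.2 ⟨hyP, rfl⟩, (z P, x (z P)), mem_lft.2 ⟨hzP, rfl⟩,
      ?_, ?_, ?_⟩
    · intro h
      exact hzy (congrArg Prod.fst h).symm
    · rw [lft_erase, mem_G1]
      exact fun h => hyG h.1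
    · rw [lft_erase, mem_G1]
      intro h
      refine h.2 (y P) (mem_erase.2 ⟨hzy.symm, hyP⟩) ?_
      rw [erase_right_comm]
      exact hsum
  · intro Q hQ
    obtain ⟨P, x, hP, rfl⟩ := B1_shape hB0 Q hQ
    obtain ⟨-, -, v, hv, hvG⟩ := mem_B1.1 hQ
    refine ⟨(v, x v), mem_lft.2 ⟨hv, rfl⟩, ?_⟩
    rw [lft_erase]
    exact hvG

end Pool.Agent.Work.MP_0ea01d_co.TB
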