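import Pool.Agent.Work.MP_0ea01d_co.TB.Struct
import Pool.Agent.Work.MP_0ea01d_co.TB.FibA
import Pool.Agent.Work.MP_0ea01d_co.TB.LinA
import Pool.Agent.Work.MP_0ea01d_co.TB.LinB

/-!
# Module UpCount (M). Upper bound for the number of cliques.

Proof. Write `N = card V`, `K = cliq l (HH G B α)`. If `K = ∅` there is nothing to do; otherwise
`l + 1 ≤ N` (a clique is `lft P x` with `P.card = l + 1`, `cliq_shape`). `card_fib` with `k = l + 1`
(shape: `cliq_shape`; `ZMod.card q`) gives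
`K.card * q ^ (N - (l+1)) = ∑ P (|P| = l + 1) #{x | lft P x ∈ K}`.
By `cliq_struct`, `{x | lft P x ∈ K}` is contained in the union of `{x | Lab G α P x}` (only if
`P ∈ B`) and of the sets `{x | Lab G α P1 x ∧ Lab G α P2 x}`, `P1 ≠ P2 ∈ B`.
With `#{x | Lab G α P x} * q = q ^ N` (`card_lab_one`, the core is nonempty by `hB.one`) and
`#{x | Lab G α P1 x ∧ Lab G α P2 x} * q ^ 2 ≤ q ^ N` (`card_lab_two`, `α P1 ≠ α P2` by `hα`),
`K.card * q ^ (N - (l+1)) * q ^ 2 ≤ B.card * q ^ (N+1) + 2 ^ N * B.card ^ 2 * q ^ N`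
(the number of all `P` is at most `2 ^ N`; for the first alternative only `P ∈ B` contribute). Since
`q ^ N = q ^ (N - (l+1)) * q ^ 2 * q ^ (l-1)` and `q ^ (N+1) = q ^ (N - (l+1)) * q ^ 2 * q ^ l`
(`l ≥ 2`), cancel `q ^ (N - (l+1)) * q ^ 2 > 0`.
-/

set_option autoImplicit false

namespace Pool.Agent.Work.MP_0ea01d_co.TB

open Finset

variable {V : Type} [DecidableEq V] [Fintype V] {q : ℕ} [NeZero q] {l : ℕ}

theorem card_cliq_le (hl : 2 ≤ l) {G B : Finset (Finset V)} (hG : Free l G) (hB : Tame l G B)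
    (α : Finset V → ZMod q) (hα : Set.InjOn α (B : Set (Finset V))) :
    (cliq l (HH G B α)).card ≤
      B.card * q ^ l + 2 ^ Fintype.card V * B.card ^ 2 * q ^ (l - 1) := by
  classical
  have hst : ∀ (P : Finset V) (x : V → ZMod q), lft P x ∈ cliq l (HH G B α) →
      (P ∈ B ∧ Lab G α P x) ∨
        ∃ P1 ∈ B, ∃ P2 ∈ B, P1 ≠ P2 ∧ Lab G α P1 x ∧ Lab G α P2 x :=
    fun P x h => cliq_struct hG hB α h
  have hshape : ∀ e ∈ cliq l (HH G B α),
      ∃ (P : Finset V) (x : V → ZMod q), P.card = l + 1 ∧ e = lft P x :=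
    fun e he => cliq_shape hl hG hB α he
  obtain ⟨K, hK⟩ : ∃ K, K = cliq l (HH G B α) := ⟨_, rfl⟩
  rw [← hK] at hst hshape ⊢
  obtain ⟨N, hNdef⟩ : ∃ N, N = Fintype.card V := ⟨_, rfl⟩
  rw [← hNdef]
  have hq : 0 < q := Nat.pos_of_ne_zero (NeZero.ne q)
  rcases K.eq_empty_or_nonempty with h0 | ⟨e0, he0⟩
  · rw [h0, card_empty]
    exact Nat.zero_le _
  have hN : l + 1 ≤ N := by
    obtain ⟨P, x, hP, -⟩ := hshape e0 he0
    rw [← hP, hNdef]
    exact Finset.card_le_univ P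
  have hfib := card_fib (l + 1) K hshape
  rw [ZMod.card, ← hNdef] at hfib
  have hcore : ∀ P ∈ B, (core G P).Nonempty := by
    intro P hP
    obtain ⟨c, hc, hcG⟩ := hB.one P hP
    exact ⟨c, mem_filter.2 ⟨hc, hcG⟩⟩
  have h1 : ∀ P : Finset V, (univ.filter fun x : V → ZMod q => lft P x ∈ K).card * q ^ 2 ≤
      (if P ∈ B then q ^ (N + 1) else 0) + B.card ^ 2 * q ^ N := by
    intro P
    obtain ⟨T, hT⟩ : ∃ T : Finset V → Finset (V → ZMod q), ∀ P, T P =
        univ.filter fun x : V → ZMod q => ∑ c ∈ core G P, x c = α P := ⟨_, fun _ => rfl⟩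
    obtain ⟨T2, hT2⟩ : ∃ T2 : Finset V × Finset V → Finset (V → ZMod q), ∀ r, T2 r =
        if r.1 ≠ r.2 then (univ.filter fun x : V → ZMod q =>
          ∑ c ∈ core G r.1, x c = α r.1 ∧ ∑ c ∈ core G r.2, x c = α r.2) else ∅ :=
      ⟨_, fun _ => rfl⟩
    have hsub : (univ.filter fun x : V → ZMod q => lft P x ∈ K) ⊆
        (if P ∈ B then T P else ∅) ∪ (B ×ˢ B).biUnion T2 := by
      intro x hx
      rw [mem_filter] at hx
      rcases hst P x hx.2 with ⟨hPB, hL⟩ | ⟨P1, hP1, P2, hP2, hne, hL1, hL2⟩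
      · rw [mem_union, if_pos hPB, hT, mem_filter]
        exact Or.inl ⟨mem_univ _, hL⟩
      · rw [mem_union, mem_biUnion]
        refine Or.inr ⟨(P1, P2), mem_product.2 ⟨hP1, hP2⟩, ?_⟩
        rw [hT2, if_pos hne, mem_filter]
        exact ⟨mem_univ _, hL1, hL2⟩
    have h2 : (if P ∈ B then T P else ∅).card * q ^ 2 ≤ (if P ∈ B then q ^ (N + 1) else 0) := by
      split_ifs with hPB
      · rw [hT, pow_two, ← mul_assoc, card_lab_one _ (hcore P hPB), pow_succ, hNdef]
      · rw [card_empty, zero_mul]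
    have h3 : ((B ×ˢ B).biUnion T2).card * q ^ 2 ≤ B.card ^ 2 * q ^ N := by
      have h4 : ((B ×ˢ B).biUnion T2).card * q ^ 2 ≤ (∑ r ∈ B ×ˢ B, (T2 r).card) * q ^ 2 :=
        Nat.mul_le_mul_right _ card_biUnion_le
      refine h4.trans ?_
      rw [Finset.sum_mul]
      have h5 : ∀ r ∈ B ×ˢ B, (T2 r).card * q ^ 2 ≤ q ^ N := by
        intro r hr
        rw [mem_product] at hr
        rw [hT2]
        split_ifs with hne
        · rw [hNdef]
          refine card_lab_two _ _ (hcore _ hr.1) (hcore _ hr.2) _ _ (Or.inr fun h => hne ?_)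
          exact hα hr.1 hr.2 h
        · rw [card_empty, zero_mul]
          exact Nat.zero_le _
      refine (Finset.sum_le_sum h5).trans ?_
      rw [Finset.sum_const, card_product, smul_eq_mul, pow_two]
    calc (univ.filter fun x : V → ZMod q => lft P x ∈ K).card * q ^ 2
        ≤ ((if P ∈ B then T P else ∅).card + ((B ×ˢ B).biUnion T2).card) * q ^ 2 :=
          Nat.mul_le_mul_right _ ((card_le_card hsub).trans (card_union_le _ _))
      _ = (if P ∈ B then T P else ∅).card * q ^ 2 + ((B ×ˢ B).biUnion T2).card * q ^ 2 :=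
          add_mul _ _ _
      _ ≤ _ := add_le_add h2 h3
  have h6 : K.card * q ^ (N - (l + 1)) * q ^ 2 ≤
      B.card * q ^ (N + 1) + 2 ^ N * (B.card ^ 2 * q ^ N) := by
    rw [hfib, Finset.sum_mul]
    refine (Finset.sum_le_sum fun P _ => h1 P).trans ?_
    rw [Finset.sum_add_distrib]
    refine add_le_add ?_ ?_
    · rw [← Finset.sum_filter, Finset.sum_const, smul_eq_mul]
      refine Nat.mul_le_mul_right _ (card_le_card fun P hP => ?_)
      exact (mem_filter.1 hP).2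
    · rw [Finset.sum_const, smul_eq_mul]
      refine Nat.mul_le_mul_right _ ?_
      refine (card_le_card (Finset.subset_univ _)).trans ?_
      rw [Finset.card_univ, Fintype.card_finset, hNdef]
  have hpos : 0 < q ^ (N - (l + 1)) * q ^ 2 := Nat.mul_pos (Nat.pow_pos hq) (Nat.pow_pos hq)
  have e1 : q ^ (N + 1) = q ^ (N - (l + 1)) * q ^ 2 * q ^ l := by
    rw [← pow_add, ← pow_add]
    congr 1
    omega
  have e2 : q ^ N = q ^ (N - (l + 1)) * q ^ 2 * q ^ (l - 1) := by
    rw [← pow_add, ← pow_add]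
    congr 1
    omega
  refine Nat.le_of_mul_le_mul_left ?_ hpos
  calc q ^ (N - (l + 1)) * q ^ 2 * K.card = K.card * q ^ (N - (l + 1)) * q ^ 2 := by ring
    _ ≤ _ := h6
    _ = q ^ (N - (l + 1)) * q ^ 2 * (B.card * q ^ l + 2 ^ N * B.card ^ 2 * q ^ (l - 1)) := by
      rw [e1, e2]
      ring

end Pool.Agent.Work.MP_0ea01d_co.TB
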